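import Pool.Statements.S00155
import Pool.Agent.P.MP_41a2b4_ag.Final
import Pool.Agent.P.MP_41a2b4_ag.Heis
import Pool.Agent.P.MP_41a2b4_ag.Mp
import Pool.Agent.P.MP_41a2b4_ag.Q8
import Pool.Agent.P.MP_41a2b4_ag.D4

set_option autoImplicit false
open Pool Pool.MP_41a2b4_ag

namespace Pool.Agent.S00155

/-- For every prime p, algebraically closed k of char p, and non-abelian G of order p^3, some DVR R finite over W(k) with residue field k and some faithful k-action of G on k[[z]] admit an R-action of G on R[[Z]] reducing to it. -/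
theorem result :
    ∀ (p : ℕ) [Fact p.Prime] (k : Type) [Field k] [IsAlgClosed k] [CharP k p]
      (G : Type) [Group G],
      Nat.card G = p ^ 3 → (∃ a b : G, a * b ≠ b * a) →
      ∃ (R : Type) (_ : CommRing R) (_ : IsDomain R) (_ : IsDiscreteValuationRing R)
        (_ : Algebra (WittVector p k) R) (_ : Module.Finite (WittVector p k) R)
        (π : R →+* k)
        (i : G →* (PowerSeries k ≃ₐ[k] PowerSeries k))
        (j : G →* (PowerSeries R ≃ₐ[R] PowerSeries R)),
        Function.Surjective π ∧ Function.Injective i ∧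
          ∀ (g : G) (f : PowerSeries R),
            PowerSeries.map π (j g f) = i g (PowerSeries.map π f) := by
  exact Pool.Agent.P.MP_41a2b4_ag.final @Pool.Agent.P.MP_41a2b4_ag.good_heis
    @Pool.Agent.P.MP_41a2b4_ag.good_mod @Pool.Agent.P.MP_41a2b4_ag.good_quat
    @Pool.Agent.P.MP_41a2b4_ag.good_dihedral

end Pool.Agent.S00155
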