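import Pool.Statements.S00341
import Pool.Agent.P.MP_a05398_ag.Final

set_option autoImplicit false
open Pool Pool.MP_a05398_ag

namespace Pool.Agent.S00341

/-- Every smooth Fano d-polytope (d ≥ 1) with ∣vertices∣ − d = 2d − k and d > 3k is, up to GL_d(ℤ), the free sum of m ≥ 1 hexagons (the S₃ fan) and a smooth Fano polytope of dimension d − 2m ≤ 3k. -/
theorem result :
    ∀ (d : ℕ) (V : Finset (Fin d → ℤ)),
      0 < d →
      (0 : Fin d → ℝ) ∈ interior (convexHull ℝ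
        ((fun (v : Fin d → ℤ) (i : Fin d) => (v i : ℝ)) '' (V : Set (Fin d → ℤ)))) →
      (∀ v ∈ V, (fun i : Fin d => (v i : ℝ)) ∉ convexHull ℝ
        ((fun (w : Fin d → ℤ) (i : Fin d) => (w i : ℝ)) '' ((V.erase v : Finset (Fin d → ℤ)) : Set (Fin d → ℤ)))) →
      (∀ u : Fin d → ℝ, (∀ v ∈ V, ∑ i, u i * (v i : ℝ) ≤ 1) →
        ∃ b : Module.Basis (Fin d) ℤ (Fin d → ℤ),
          ∀ v ∈ V, ∑ i, u i * (v i : ℝ) = 1 → v ∈ Set.range b) →
      3 * (3 * (d : ℤ) - (V.card : ℤ)) < (d : ℤ) →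
      ∃ m : ℕ, 1 ≤ m ∧ 2 * m ≤ d ∧
        (d : ℤ) - 2 * (m : ℤ) ≤ 3 * (3 * (d : ℤ) - (V.card : ℤ)) ∧
        ∃ g : (Fin d → ℤ) ≃ₗ[ℤ] (Fin d → ℤ),
          (∀ v ∈ V, (∀ i : Fin d, (i : ℕ) < 2 * m → g v i = 0) ∨
            ∃ j : ℕ, j < m ∧ ∃ a b : ℤ,
              (a, b) ∈ ({(1, 0), (0, 1), (-1, 0), (0, -1), (1, 1), (-1, -1)} : Finset (ℤ × ℤ)) ∧
              ∀ i : Fin d, g v i =
                if (i : ℕ) = 2 * j then a else if (i : ℕ) = 2 * j + 1 then b else 0) ∧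
          (∀ j : ℕ, j < m → ∀ a b : ℤ,
            (a, b) ∈ ({(1, 0), (0, 1), (-1, 0), (0, -1), (1, 1), (-1, -1)} : Finset (ℤ × ℤ)) →
            ∃ v ∈ V, ∀ i : Fin d, g v i =
              if (i : ℕ) = 2 * j then a else if (i : ℕ) = 2 * j + 1 then b else 0) := by
  intro d V hd h1 h2 h3 hk
  exact Pool.Agent.P.MP_a05398_ag.final (Pool.Agent.P.MP_a05398_ag.fano_of V hd h1 h2 h3) hk

end Pool.Agent.S00341
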