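import Pool.Statements.S00505
import Pool.Agent.P.MP_e35cb8_ag.Proj

set_option autoImplicit false
open Pool Pool.MP_e35cb8_ag

namespace Pool.Agent.S00505

/-- For every surjective ℂ-algebra map from ℂ[X1,…,X5] onto ℂ[Y1,Y2], its kernel is generated as an ideal by three polynomials. -/
theorem result :
    ∀ α : MvPolynomial (Fin 5) ℂ →ₐ[ℂ] MvPolynomial (Fin 2) ℂ,
      Function.Surjective α →
        ∃ f : Fin 3 → MvPolynomial (Fin 5) ℂ,
          Ideal.span (Set.range f) = RingHom.ker α := by
  exact fun α hα => Pool.Agent.P.MP_e35cb8_ag.main α hα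

end Pool.Agent.S00505
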