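import Pool.Statements.S00557
import Pool.Agent.P.MP_f6c533_ag.Final

set_option autoImplicit false
open AlgebraicGeometry CategoryTheory CategoryTheory.Limits
open Pool Pool.MP_f6c533_ag

namespace Pool.Agent.S00557

/-- For an integral finite-type separated Q̄-scheme B, a closed subscheme X of projective space over B, an endomorphism f of X over B and a section x with pairwise distinct iterates, some Q̄-point b of B has x_b with pairwise distinct iterates. -/
theorem result :
    ∀ (B X : Scheme.{0}) (s : B ⟶ Spec (CommRingCat.of (AlgebraicClosure ℚ)))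
      (p : X ⟶ B) (f : X ⟶ X) (x : B ⟶ X),
      AlgebraicGeometry.IsIntegral B →
      AlgebraicGeometry.LocallyOfFiniteType s →
      AlgebraicGeometry.QuasiCompact s →
      AlgebraicGeometry.IsSeparated s →
      (∃ (n : ℕ) (_ : GradedAlgebra (MvPolynomial.homogeneousSubmodule (Fin (n + 1)) ℤ))
        (a : B ⟶ Spec (CommRingCat.of ℤ))
        (c : Proj (MvPolynomial.homogeneousSubmodule (Fin (n + 1)) ℤ) ⟶ Spec (CommRingCat.of ℤ))
        (i : X ⟶ pullback a c),
        AlgebraicGeometry.IsClosedImmersion i ∧ i ≫ pullback.fst a c = p) →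
      f ≫ p = p →
      x ≫ p = 𝟙 B →
      (∀ n m : ℕ, n ≠ m →
        (fun g : B ⟶ X => g ≫ f)^[n] x ≠ (fun g : B ⟶ X => g ≫ f)^[m] x) →
      ∃ b : Spec (CommRingCat.of (AlgebraicClosure ℚ)) ⟶ B,
        b ≫ s = 𝟙 _ ∧
        ∀ n m : ℕ, n ≠ m →
          (fun g : Spec (CommRingCat.of (AlgebraicClosure ℚ)) ⟶ X => g ≫ f)^[n] (b ≫ x) ≠
            (fun g : Spec (CommRingCat.of (AlgebraicClosure ℚ)) ⟶ X => g ≫ f)^[m] (b ≫ x) := by
  rintro B X s p f x _ _ _ _ ⟨n, _, a, c, i, _, rfl⟩ hf hx hnp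
  by_contra! hcon
  have := Pool.Agent.P.MP_f6c533_ag.isAlgebraic_int (AlgebraicClosure.isAlgebraic ℚ)
  obtain ⟨n, m, hnm, h⟩ := Pool.Agent.P.MP_f6c533_ag.scheme_main s _ f x (i ≫ pullback.snd a c)
    (fun V hV => Pool.Agent.P.MP_f6c533_ag.isAffineOpen_chartO (.of_hasPullback a c) i hV)
    (fun V hV => Pool.Agent.P.MP_f6c533_ag.surjective_chartθ (.of_hasPullback a c) i hV)
    hf hx hcon
  exact hnp n m hnm h

end Pool.Agent.S00557
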