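import Pool.Statements.S01382
import Pool.Agent.P.MP_4a7a83_al.SideB
import Pool.Agent.P.MP_4a7a83_al.LIso
import Pool.Agent.P.MP_4a7a83_al.MTop

set_option autoImplicit false
open Pool Pool.MP_4a7a83_al

namespace Pool.Agent.S01382

/-- The negation of the preceding statement: For lattice varieties V, W: if every lattice in V has its semilattice of compact congruences isomorphic to that of some lattice in W, then V is contained in W or in the dual of W. -/
theorem result :
    ¬ (∀ V W : (α : Type) → [Lattice α] → Prop,
    ((∀ (A B : Type) [Lattice A] [Lattice B] (f : LatticeHom A B),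
        Function.Surjective f → V A → V B) ∧
     (∀ (A B : Type) [Lattice A] [Lattice B] (f : LatticeHom A B),
        Function.Injective f → V B → V A) ∧
     (∀ (I : Type) (A : I → Type) [∀ i, Lattice (A i)],
        (∀ i, V (A i)) → V (∀ i, A i))) →
    ((∀ (A B : Type) [Lattice A] [Lattice B] (f : LatticeHom A B),
        Function.Surjective f → W A → W B) ∧
     (∀ (A B : Type) [Lattice A] [Lattice B] (f : LatticeHom A B),
        Function.Injective f → W B → W A) ∧
     (∀ (I : Type) (A : I → Type) [∀ i, Lattice (A i)],
        (∀ i, W (A i)) → W (∀ i, A i))) →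
    (∀ (L : Type) [Lattice L], V L →
      ∃ (M : Type) (_ : Lattice M), W M ∧
        Nonempty
          ({r : L → L → Prop //
              (Equivalence r ∧ ∀ a b c d : L, r a b → r c d →
                  r (a ⊔ c) (b ⊔ d) ∧ r (a ⊓ c) (b ⊓ d)) ∧
              ∃ F : Set (L × L), F.Finite ∧
                ∀ a b : L, r a b ↔
                  ∀ s : L → L → Prop,
                    (Equivalence s ∧ ∀ x y z w : L, s x y → s z w →
                        s (x ⊔ z) (y ⊔ w) ∧ s (x ⊓ z) (y ⊓ w)) →
                    (∀ p ∈ F, s p.1 p.2) → s a b} ≃o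
           {r : M → M → Prop //
              (Equivalence r ∧ ∀ a b c d : M, r a b → r c d →
                  r (a ⊔ c) (b ⊔ d) ∧ r (a ⊓ c) (b ⊓ d)) ∧
              ∃ F : Set (M × M), F.Finite ∧
                ∀ a b : M, r a b ↔
                  ∀ s : M → M → Prop,
                    (Equivalence s ∧ ∀ x y z w : M, s x y → s z w →
                        s (x ⊔ z) (y ⊔ w) ∧ s (x ⊓ z) (y ⊓ w)) →
                    (∀ p ∈ F, s p.1 p.2) → s a b})) →
    (∀ (L : Type) [Lattice L], V L → W L) ∨
    (∀ (L : Type) [Lattice L], V L → W Lᵒᵈ)) := by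
  exact Pool.Agent.P.MP_4a7a83_al.not_main
    (Pool.Agent.P.MP_4a7a83_al.KS.lifts Pool.Agent.P.MP_4a7a83_al.MS.modelSide)

end Pool.Agent.S01382
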