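import Pool.Statements.S01386
import Pool.Agent.P.MP_4b59b0_al.Limit

set_option autoImplicit false
open Pool Pool.MP_4b59b0_al

namespace Pool.Agent.S01386

/-- The negation of the preceding statement: For every word v in finitely many variables and every group G, if the marginal subgroup of v in G has finite index, then the verbal subgroup generated by all values of v in G is finite. -/
theorem result :
    ¬ (∀ (n : ℕ) (v : FreeGroup (Fin n)) (G : Type) [Group G],
      (Subgroup.closure
          {a : G | ∀ (f : Fin n → G) (i : Fin n),
            FreeGroup.lift (Function.update f i (f i * a)) v = FreeGroup.lift f v}).index ≠ 0 →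
      ((Subgroup.closure (Set.range (fun f : Fin n → G => FreeGroup.lift f v)) : Subgroup G)
          : Set G).Finite) := by
  intro h
  obtain ⟨v, G, _, h1, h2⟩ := Pool.Agent.P.MP_4b59b0_al.counterexample
  exact h2 (h 2 v G h1)

end Pool.Agent.S01386
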