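import Pool.Statements.S01618
import Pool.Agent.P.MP_5e147a_al.H16.Limit

set_option autoImplicit false
open Pool Pool.MP_5e147a_al

namespace Pool.Agent.S01618

/-- The negation of the preceding statement: Let G be a group whose finitely generated subgroups are all finite, with G = PQ for a p-subgroup P and a q-subgroup Q (p, q distinct primes). Then every element of G has order of the form p^m q^n. -/
theorem result :
    ¬ (∀ (G : Type) [Group G] (p q : ℕ), p.Prime → q.Prime → p ≠ q →
      (∀ s : Finset G, ((Subgroup.closure (s : Set G) : Subgroup G) : Set G).Finite) →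
      ∀ P Q : Subgroup G, IsPGroup p P → IsPGroup q Q →
        (∀ g : G, ∃ a ∈ P, ∃ b ∈ Q, g = a * b) →
        ∀ g : G, ∃ m n : ℕ, g ^ (p ^ m * q ^ n) = 1) := by
  intro h
  obtain ⟨G, _, P, Q, c, h1, hP, hQ, h2, hc⟩ := Pool.Agent.P.MP_5e147a_al.H16.exists_counterexample
  obtain ⟨m, n, hmn⟩ := h G 3 2 Nat.prime_three Nat.prime_two (by norm_num) h1 P Q hP hQ h2 c
  have h3 := orderOf_dvd_of_pow_eq_one hmn
  rw [hc] at h3
  have h4 : Nat.Coprime 5 (3 ^ m * 2 ^ n) :=
    Nat.Coprime.mul_right (Nat.Coprime.pow_right _ (by norm_num))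
      (Nat.Coprime.pow_right _ (by norm_num))
  exact absurd (h4.eq_one_of_dvd h3) (by norm_num)

end Pool.Agent.S01618
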