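import Pool.Statements.S01774
import Pool.Agent.P.MP_68f206_al.Main

set_option autoImplicit false
open Pool Pool.MP_68f206_al

namespace Pool.Agent.S01774

/-- The negation of the preceding statement: For any finite algebra whose clone has weak near-unanimity operations of every arity at least 3 and is minimal among such clones, and any elements a, b, the set Sg{a,b} minus a is closed under all term operations. -/
theorem result :
    ¬ (∀ (A : Type) [Fintype A] (C : ∀ n : ℕ, Set ((Fin n → A) → A)),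
    (∀ (n : ℕ) (i : Fin n), (fun x : Fin n → A => x i) ∈ C n) →
    (∀ (n m : ℕ) (f : (Fin n → A) → A) (g : Fin n → (Fin m → A) → A),
        f ∈ C n → (∀ i, g i ∈ C m) → (fun x : Fin m → A => f (fun i => g i x)) ∈ C m) →
    (∀ n : ℕ, 3 ≤ n → ∃ f ∈ C n, (∀ x : A, f (fun _ : Fin n => x) = x) ∧
        ∀ (x y : A) (i j : Fin n),
          f (Function.update (fun _ : Fin n => x) i y) = f (Function.update (fun _ : Fin n => x) j y)) →
    (∀ D : ∀ n : ℕ, Set ((Fin n → A) → A),
        (∀ (n : ℕ) (i : Fin n), (fun x : Fin n → A => x i) ∈ D n) →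
        (∀ (n m : ℕ) (f : (Fin n → A) → A) (g : Fin n → (Fin m → A) → A),
            f ∈ D n → (∀ i, g i ∈ D m) → (fun x : Fin m → A => f (fun i => g i x)) ∈ D m) →
        (∀ n : ℕ, D n ⊆ C n) →
        (∀ n : ℕ, 3 ≤ n → ∃ f ∈ D n, (∀ x : A, f (fun _ : Fin n => x) = x) ∧
            ∀ (x y : A) (i j : Fin n),
              f (Function.update (fun _ : Fin n => x) i y) = f (Function.update (fun _ : Fin n => x) j y)) →
        ∀ n : ℕ, D n = C n) →
    ∀ a b : A, ∀ n : ℕ, ∀ f ∈ C n, ∀ x : Fin n → A,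
      (∀ i, x i ≠ a ∧ ∀ T : Set A, a ∈ T → b ∈ T →
          (∀ k : ℕ, ∀ g ∈ C k, ∀ y : Fin k → A, (∀ j, y j ∈ T) → g y ∈ T) → x i ∈ T) →
      f x ≠ a ∧ ∀ T : Set A, a ∈ T → b ∈ T →
          (∀ k : ℕ, ∀ g ∈ C k, ∀ y : Fin k → A, (∀ j, y j ∈ T) → g y ∈ T) → f x ∈ T) := by
  intro H
  obtain ⟨C, hsub, hclone, hW, hmin⟩ := Pool.Agent.P.MP_68f206_al.exists_minimal
    Pool.Agent.P.MP_68f206_al.Pol Pool.Agent.P.MP_68f206_al.pol_clone
    Pool.Agent.P.MP_68f206_al.pol_hasWNU
  obtain ⟨w, hwC, hw⟩ := hW 3 le_rfl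
  have hp := hsub 3 hwC
  have key := H (Fin 7) C hclone.1 hclone.2 hW
    (fun D h1 h2 h3 h4 => hmin D ⟨h1, h2⟩ h3 h4) 0 3 3 w hwC ![2, 2, 6] (by
      intro i
      refine ⟨by fin_cases i <;> decide, ?_⟩
      intro T ha hb hT
      have h := Pool.Agent.P.MP_68f206_al.generates hw hp T ha hb (fun y hy => hT 3 w hwC y hy)
      fin_cases i
      · exact h.1
      · exact h.1
      · exact h.2)
  exact key.1 (Pool.Agent.P.MP_68f206_al.values hw hp).2.2.2.2.2.2

end Pool.Agent.S01774
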