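import Pool.Statements.S02091
import Pool.Agent.P.MP_81321e_al.BCS
import Pool.Agent.P.MP_81321e_al.BAlg
import Pool.Agent.P.MP_81321e_al.BPhi
import Pool.Agent.P.MP_81321e_al.TwGeo

set_option autoImplicit false
open Pool Pool.MP_81321e_al

namespace Pool.Agent.S02091

/-- For every d ≥ 1 there are a monoid M and a field K such that d×d matrices over K[M] satisfy ab=1 ⇒ ba=1, but (d+1)×(d+1) matrices over K[M] do not. -/
theorem result :
    ∀ d : ℕ, 1 ≤ d →
      ∃ (M : Type) (_ : Monoid M) (K : Type) (_ : Field K),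
        (∀ a b : Matrix (Fin d) (Fin d) (MonoidAlgebra K M), a * b = 1 → b * a = 1) ∧
        ¬ (∀ a b : Matrix (Fin (d + 1)) (Fin (d + 1)) (MonoidAlgebra K M),
            a * b = 1 → b * a = 1) := by
  open Pool.Agent.P.MP_81321e_al in exact glue (partB_of (cs phi) alg geo)

end Pool.Agent.S02091
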