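import Pool.Statements.S02125
import Pool.Agent.P.MP_839d28_al.Final

set_option autoImplicit false
open MeasureTheory
open Pool Pool.MP_839d28_al

namespace Pool.Agent.S02125

open Pool.Agent.P.MP_839d28_al in
/-- There are ε>0 and k>0 such that for every n≥3, SO(n) has a symmetric k-element topologically generating set S with the sum of its translation operators at most k−ε on mean-zero L² functions for Haar measure. -/
theorem result :
  ∃ ε : ℝ, 0 < ε ∧ ∃ k : ℕ, 0 < k ∧ ∀ n : ℕ, 3 ≤ n →
    ∃ S : Finset (Matrix (Fin n) (Fin n) ℝ), S.card = k ∧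
      (∀ s ∈ S, s.transpose * s = 1 ∧ s.det = 1) ∧
      (∀ s ∈ S, s.transpose ∈ S) ∧
      (∀ g : Matrix (Fin n) (Fin n) ℝ, g.transpose * g = 1 → g.det = 1 →
        g ∈ closure ((Submonoid.closure (S : Set (Matrix (Fin n) (Fin n) ℝ)) :
          Set (Matrix (Fin n) (Fin n) ℝ)))) ∧
      ∀ μ : Measure (Fin n → Fin n → ℝ), IsProbabilityMeasure μ →
        μ {x | ¬ ((Matrix.of x).transpose * Matrix.of x = 1 ∧ (Matrix.of x).det = 1)} = 0 →
        (∀ g : Matrix (Fin n) (Fin n) ℝ, g.transpose * g = 1 → g.det = 1 →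
          μ.map (fun x : Fin n → Fin n → ℝ => fun i j => ∑ l, g i l * x l j) = μ) →
        ∀ f : (Fin n → Fin n → ℝ) → ℝ, MemLp f 2 μ → ∫ x, f x ∂μ = 0 →
          ∑ s ∈ S, ∫ x, f (fun i j => ∑ l, s i l * x l j) * f x ∂μ
            ≤ ((k : ℝ) - ε) * ∫ x, f x ^ 2 ∂μ := by
  classical
  obtain ⟨ε, hε, k, hk, h⟩ := gap_all
  refine ⟨ε, hε, k, hk, fun n hn => ?_⟩
  obtain ⟨S, h1, h2, h3⟩ := h n hn
  refine ⟨S.image (inc _), by rw [Finset.card_image_of_injective _ emb_inc.inj, h1], ?_, ?_, ?_,
    ?_⟩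
  · intro s hs
    obtain ⟨g, -, rfl⟩ := Finset.mem_image.mp hs
    exact emb_inc.so g
  · intro s hs
    obtain ⟨g, hg, rfl⟩ := Finset.mem_image.mp hs
    rw [← emb_inc.inv]
    exact Finset.mem_image_of_mem _ (h2 g hg)
  · intro A a1 a2
    obtain ⟨g, rfl⟩ := emb_inc.surj A ⟨a1, a2⟩
    have : IsProbabilityMeasure (Measure.haarMeasure (⊤ : TopologicalSpace.PositiveCompacts
        (SOG (Fin n)))) := ⟨Measure.haarMeasure_self⟩
    have hd := dense_of_gap (Measure.haarMeasure ⊤) S h2 hε (h3 _)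
    refine closure_mono ?_ (mem_closure_image continuous_inc.continuousAt (hd g))
    rw [Finset.coe_image, ← MonoidHom.map_mclosure]
    exact subset_rfl
  · intro μ _ m1 m2 f hf h0
    have he := emb_vl (ι := Fin n)
    set ν : Measure (SOG (Fin n)) := μ.comap vl with hν
    have e1 : ν.map vl = μ := by
      rw [hν, he.map_comap, Measure.restrict_eq_self_of_ae_mem]
      rw [range_vl]
      exact m1
    have : IsProbabilityMeasure ν := ⟨by
      rw [← Set.preimage_univ (f := (vl : SOG (Fin n) → _)), ← he.map_apply, e1, measure_univ]⟩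
    have : ν.IsMulLeftInvariant := ⟨fun g => by
      refine he.map_injective ?_
      have hm : Measurable fun x : Fin n → Fin n → ℝ => fun i j => ∑ l, inc _ g i l * x l j := by
        fun_prop
      rw [Measure.map_map he.measurable (measurable_const_mul g), e1]
      refine Eq.trans ?_ (m2 (inc _ g) g.2.1 g.2.2)
      rw [← e1, Measure.map_map hm he.measurable]
      rfl⟩
    rw [← e1] at hf h0 ⊢
    rw [he.memLp_map_measure_iff] at hf
    rw [he.integral_map] at h0
    rw [Finset.sum_image emb_inc.inj.injOn, ← h1]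
    simp only [he.integral_map]
    exact h3 ν _ hf h0

end Pool.Agent.S02125
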