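import Pool.Statements.S02142
import Pool.Agent.P.MP_84759c_al.Main

set_option autoImplicit false
open Pool Pool.MP_84759c_al

namespace Pool.Agent.S02142

/-- The negation of the preceding statement: There is a finite set of l-group identities of the form 1 ≤ w1 ⊔ … ⊔ wn such that an l-group satisfies them exactly when it satisfies every such identity true in all nilpotent l-groups. -/
theorem result :
    ¬ (∃ E : Finset (Finset (FreeGroup ℕ)),
      ∀ (G : Type) [Group G] [Lattice G] [MulLeftMono G] [MulRightMono G],
        ((∀ s ∈ E, ∀ hs : s.Nonempty, ∀ v : ℕ → G,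
            (1 : G) ≤ s.sup' hs (fun w => FreeGroup.lift v w)) ↔
          (∀ s : Finset (FreeGroup ℕ), ∀ hs : s.Nonempty,
            (∀ (H : Type) [Group H] [Lattice H] [MulLeftMono H] [MulRightMono H],
              Group.IsNilpotent H → ∀ v : ℕ → H,
                (1 : H) ≤ s.sup' hs (fun w => FreeGroup.lift v w)) →
            ∀ v : ℕ → G, (1 : G) ≤ s.sup' hs (fun w => FreeGroup.lift v w)))) := by
  exact Pool.Agent.P.MP_84759c_al.not_finitely_based

end Pool.Agent.S02142
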