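import Pool.Statements.S02262
import Pool.Agent.P.MP_90339f_al.Extend

set_option autoImplicit false
open Pool Pool.MP_90339f_al

namespace Pool.Agent.S02262

/-- The negation of the preceding statement: Take G solvable with some r such that every finitely generated subgroup of G is generated by at most r elements. Then every Artinian module over the integral group ring ℤG is countable. -/
theorem result :
    ¬ (∀ (G : Type) [Group G], IsSolvable G →
      (∃ r : ℕ, ∀ H : Subgroup G, H.FG →
          ∃ s : Finset G, s.card ≤ r ∧ Subgroup.closure (s : Set G) = H) →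
      ∀ (M : Type) [AddCommGroup M] [Module (MonoidAlgebra ℤ G) M],
        IsArtinian (MonoidAlgebra ℤ G) M → Countable M) := by
  intro h
  obtain ⟨U, hU, hc⟩ := Pool.Agent.P.MP_90339f_al.exists_uncountable_good
  exact hc (h Pool.Agent.P.MP_90339f_al.G (inferInstanceAs (Group.IsSolvable _))
    ⟨3, Pool.Agent.P.MP_90339f_al.finite_rank Pool.Agent.P.MP_90339f_al.locally_cyclic⟩ U
    (Pool.Agent.P.MP_90339f_al.isArtinian_of_acc hU.2))

end Pool.Agent.S02262
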