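import Pool.Statements.S02520
import Pool.Agent.P.MP_a0f0ad_al.Fi.Z.All

set_option autoImplicit false
open scoped Pointwise
open Pool Pool.MP_a0f0ad_al

namespace Pool.Agent.S02520

/-- The negation of the preceding statement: Every finitely generated nilpotent group has a finite generating set S for which the series counting elements of word length at most n (letters from S and inverses) is a rational function P/Q with Q(0) nonzero. -/
theorem result :
    ¬ (∀ (G : Type) [Group G] [Group.FG G] [Group.IsNilpotent G],
      ∃ S : Finset G, Subgroup.closure (S : Set G) = ⊤ ∧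
        ∃ P Q : Polynomial ℚ, Q.coeff 0 ≠ 0 ∧
          (Q : PowerSeries ℚ) *
              PowerSeries.mk (fun n : ℕ =>
                ((((({1} : Set G) ∪ (S : Set G) ∪ (S : Set G)⁻¹) ^ n).ncard : ℕ) : ℚ)) =
            (P : PowerSeries ℚ)) :=
  Pool.Agent.P.MP_a0f0ad_al.Fi.all_TOP

end Pool.Agent.S02520
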