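import Pool.Statements.S02610
import Pool.Agent.P.MP_a84a61_al.Main

set_option autoImplicit false
open Pool Pool.MP_a84a61_al

namespace Pool.Agent.S02610

/-- The negation of the preceding statement: For every field K, every n and every subgroup G of GL_n(K), there is a finite set S of group words such that a word is an identity of G exactly when it follows from S (lies in the fully invariant closure of S). -/
theorem result :
    ¬ (∀ (K : Type) [Field K] (n : ℕ) (G : Subgroup (Matrix.GeneralLinearGroup (Fin n) K)),
      ∃ S : Finset (FreeGroup ℕ),
        ∀ w : FreeGroup ℕ,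
          (∀ f : ℕ → G, FreeGroup.lift f w = 1) ↔
            w ∈ Subgroup.normalClosure
              {u : FreeGroup ℕ | ∃ φ : FreeGroup ℕ →* FreeGroup ℕ, ∃ s ∈ S, u = φ s}) := by
  intro h
  obtain ⟨K, _, n, G, hG⟩ := Pool.Agent.P.MP_a84a61_al.main
  obtain ⟨S, hS⟩ := h K n G
  exact hG S hS

end Pool.Agent.S02610
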