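import Pool.Statements.S03190
import Pool.Agent.P.MP_d589a8_al.Main

set_option autoImplicit false
open Pool Pool.MP_d589a8_al

namespace Pool.Agent.S03190

/-- The negation of the preceding statement: For each m ≥ 2 there is c > 0 such that, for large finite nonabelian simple G, a random m-tuple has no nontrivial reduced relation of length < c·log∣G∣ with probability → 1. -/
theorem result :
    ¬ (∀ m : ℕ, 2 ≤ m → ∃ c : ℝ, 0 < c ∧ ∀ ε : ℝ, 0 < ε → ∃ N : ℕ,
      ∀ (G : Type) [Group G] [Fintype G], IsSimpleGroup G →
        (∃ a b : G, a * b ≠ b * a) → N ≤ Fintype.card G →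
        (1 - ε) * ((Fintype.card G : ℝ) ^ m) ≤
          (Nat.card {g : Fin m → G //
            ∀ w : FreeGroup (Fin m), w ≠ 1 →
              (w.norm : ℝ) < c * Real.log (Fintype.card G) →
                FreeGroup.lift g w ≠ 1} : ℝ)) :=
  Pool.Agent.P.MP_d589a8_al.not_log_girth

end Pool.Agent.S03190
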