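import Pool.Statements.S03402
import Pool.Agent.P.MP_e79ed6_al.Main

set_option autoImplicit false
open Pool Pool.MP_e79ed6_al

namespace Pool.Agent.S03402

/-- The negation of the preceding statement: Every group with a finite generating set whose word metric satisfies Gromov's four-point δ-hyperbolicity condition is sofic: finite pieces of it can be modeled by permutations that are almost multiplicative and almost fixed-point-free on non-identity elements. -/
theorem result :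
    ¬ (∀ (G : Type) [Group G],
      (∃ S : Finset G, Subgroup.closure (S : Set G) = ⊤ ∧
        ∃ ℓ : G → ℕ,
          (∀ g : G, ℓ g = sInf {n : ℕ | ∃ l : List G, l.length = n ∧
              (∀ s ∈ l, s ∈ S ∨ s⁻¹ ∈ S) ∧ l.prod = g}) ∧
          ∃ δ : ℕ, ∀ x y z w : G,
            ((ℓ (w⁻¹ * x) : ℤ) + (ℓ (w⁻¹ * z) : ℤ) - (ℓ (x⁻¹ * z) : ℤ)) ≥
              min ((ℓ (w⁻¹ * x) : ℤ) + (ℓ (w⁻¹ * y) : ℤ) - (ℓ (x⁻¹ * y) : ℤ))
                  ((ℓ (w⁻¹ * y) : ℤ) + (ℓ (w⁻¹ * z) : ℤ) - (ℓ (y⁻¹ * z) : ℤ))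
                - 2 * (δ : ℤ)) →
      ∀ F : Finset G, ∀ ε : ℝ, 0 < ε →
        ∃ n : ℕ, ∃ σ : G → Equiv.Perm (Fin n),
          (∀ g ∈ F, ∀ h ∈ F,
            (((Finset.univ.filter (fun i : Fin n => σ (g * h) i ≠ (σ g * σ h) i)).card : ℕ) : ℝ)
              < ε * (n : ℝ)) ∧
          (∀ g ∈ F, g ≠ 1 →
            (((Finset.univ.filter (fun i : Fin n => σ g i = i)).card : ℕ) : ℝ) < ε * (n : ℝ))) := by
  intro h
  obtain ⟨G, _, h1, h2⟩ := Pool.Agent.P.MP_e79ed6_al.exists_hyp_not_sofic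
  exact h2 (h G h1)

end Pool.Agent.S03402
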