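import Pool.Statements.S03849
import Pool.Agent.P.MP_1157dd_an.Full

set_option autoImplicit false
open Pool Pool.MP_1157dd_an

namespace Pool.Agent.S03849

/-- There is a constant C such that any n real d×d matrices of spectral norm at most 1 admit signs ±1 making the signed sum have spectral norm at most C·√n·max(1, √log(d/n)). -/
theorem result :
    ∃ C : ℝ, ∀ (d n : ℕ) (A : Fin n → Matrix (Fin d) (Fin d) ℝ),
      (∀ i, ‖Matrix.toEuclideanCLM (𝕜 := ℝ) (A i)‖ ≤ 1) →
      ∃ ε : Fin n → ℝ, (∀ i, ε i = 1 ∨ ε i = -1) ∧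
        ‖Matrix.toEuclideanCLM (𝕜 := ℝ) (∑ i, ε i • A i)‖ ≤
          C * Real.sqrt (n : ℝ) * max 1 (Real.sqrt (Real.log ((d : ℝ) / (n : ℝ)))) := by
  exact Pool.Agent.P.MP_1157dd_an.spencer

end Pool.Agent.S03849
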