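import Pool.Statements.S03977
import Pool.Agent.P.MP_1bacd4_an.Glue
import Pool.Agent.P.MP_1bacd4_an.Seed
import Pool.Agent.P.MP_1bacd4_an.Rec
import Pool.Agent.P.MP_1bacd4_an.Exist

set_option autoImplicit false
open Pool Pool.MP_1bacd4_an

namespace Pool.Agent.S03977

open Pool.Agent.P.MP_1bacd4_an in
/-- There is an infinite-dimensional complex Banach space X on which every bounded operator T equals c·Id plus a nuclear operator: T x − c x = Σ f_n(x) y_n, with Σ ‖f_n‖‖y_n‖ finite. -/
theorem result :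
    ∃ (X : Type) (_ : NormedAddCommGroup X) (_ : NormedSpace ℂ X) (_ : CompleteSpace X),
      ¬ FiniteDimensional ℂ X ∧
      ∀ T : X →L[ℂ] X, ∃ c : ℂ, ∃ f : ℕ → (X →L[ℂ] ℂ), ∃ y : ℕ → X,
        Summable (fun n => ‖f n‖ * ‖y n‖) ∧
        ∀ x : X, HasSum (fun n => f n x • y n) (T x - c • x) := by
  have hR : S_Rand := rand (exist (iso conc mom net) (dec net (chain conc mom)) (decoup mom))
  obtain ⟨X, Y, _, _, _, _, _, β, C, h⟩ := recu cube adm
    (stepA (lift cube) push (pushCT cube) pushBil)
    (stepB cube (lift cube) push (pushCT cube) pushBil (seed cube (ext cube)) hR) lim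
  exact cx X (realSol h)

end Pool.Agent.S03977
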