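import Pool.Statements.S04165
import Pool.Agent.P.MP_2a8753_an.Main

set_option autoImplicit false
open MeasureTheory
open Pool Pool.MP_2a8753_an

namespace Pool.Agent.S04165

/-- For every square-integrable complex g on the reals that is not a.e. zero, if a combination c0·g(x)+c1·g(x−1)+c2·e^{2πix}g(x)+c3·e^{2πi√2x}g(x−√2) vanishes a.e., then all four coefficients are zero. -/
theorem result :
    ∀ g : ℝ → ℂ, MemLp g 2 volume →
      ¬ (g =ᵐ[volume] 0) →
      ∀ c : Fin 4 → ℂ,
        (∀ᵐ x ∂(volume : Measure ℝ),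
          c 0 * g x + c 1 * g (x - 1)
            + c 2 * (Complex.exp (2 * (Real.pi : ℂ) * Complex.I * (x : ℂ)) * g x)
            + c 3 * (Complex.exp (2 * (Real.pi : ℂ) * Complex.I * ((Real.sqrt 2 : ℂ) * (x : ℂ)))
                * g (x - Real.sqrt 2)) = 0) →
        c = 0 := by
  intro g hg hg0 c h
  obtain ⟨h0, h1, h2, h3⟩ := Pool.Agent.P.MP_2a8753_an.main g hg hg0 (c 0) (c 1) (c 2) (c 3) (by
    filter_upwards [h] with x hx
    unfold Pool.Agent.P.MP_2a8753_an.ee
    push_cast
    exact hx)
  funext i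
  fin_cases i
  · exact h0
  · exact h1
  · exact h2
  · exact h3

end Pool.Agent.S04165
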