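import Pool.Statements.S05477
import Pool.Agent.P.MP_97162c_an.Bergman
import Pool.Agent.P.MP_97162c_an.Subharm

set_option autoImplicit false
open MeasureTheory
open Pool Pool.MP_97162c_an

namespace Pool.Agent.S05477

open Pool.Agent.P.MP_97162c_an Set Filter Topology Metric
open scoped ENNReal

/-- The identification of `Fin 2 → ℂ` with `ℂ × ℂ`. -/
noncomputable abbrev e : (Fin 2 → ℂ) ≃L[ℂ] ℂ × ℂ := ContinuousLinearEquiv.finTwoArrow ℂ ℂ

theorem lint (h : ℂ × ℂ → ℝ≥0∞) : ∫⁻ z in e ⁻¹' Om, h (e z) = ∫⁻ p in Om, h p :=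
  (volume_preserving_finTwoArrow ℂ).setLIntegral_comp_preimage_emb
    MeasurableEquiv.finTwoArrow.measurableEmbedding h Om

theorem isOpen_dom : IsOpen (e ⁻¹' Om) := Om_open.preimage e.continuous

theorem memLp_iff {f : (Fin 2 → ℂ) → ℂ} (hf : DifferentiableOn ℂ f (e ⁻¹' Om)) :
    MemLp f 2 (volume.restrict (e ⁻¹' Om)) ↔ ∫⁻ p in Om, ‖f (e.symm p)‖ₑ ^ 2 < ∞ := by
  rw [← lint, MemLp, eLpNorm_lt_top_iff_lintegral_rpow_enorm_lt_top (by norm_num) (by norm_num),
    and_iff_right (hf.continuousOn.aestronglyMeasurable isOpen_dom.measurableSet)]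
  simp only [ContinuousLinearEquiv.symm_apply_apply, ENNReal.toReal_ofNat, ENNReal.rpow_ofNat]

theorem g_diff : DifferentiableOn ℂ (fun z => f0 (e z)) (e ⁻¹' Om) :=
  f0_diff.comp e.differentiable.differentiableOn (mapsTo_preimage _ _)

theorem g_memLp : MemLp (fun z => f0 (e z)) 2 (volume.restrict (e ⁻¹' Om)) := by
  rw [memLp_iff g_diff]
  simpa only [ContinuousLinearEquiv.apply_symm_apply] using f0_sq_lt_top

/-- There exist n ≥ 1 and a connected open pseudoconvex Ω in ℂⁿ, with pseudoconvexity given by a continuous plurisubharmonic exhaustion, whose square-integrable holomorphic functions include a nonzero one and are all spanned by finitely many of them. -/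
theorem result :
    ∃ n : ℕ, 1 ≤ n ∧ ∃ Ω : Set (Fin n → ℂ), IsOpen Ω ∧ IsConnected Ω ∧
      (∃ φ : (Fin n → ℂ) → ℝ, ContinuousOn φ Ω ∧
        (∀ c : ℝ, IsCompact {z | z ∈ Ω ∧ φ z ≤ c}) ∧
        ∀ a b : Fin n → ℂ, (∀ ζ : ℂ, ‖ζ‖ ≤ 1 → a + ζ • b ∈ Ω) →
          φ a ≤ (1 / (2 * Real.pi)) *
            ∫ θ in (0:ℝ)..(2 * Real.pi), φ (a + Complex.exp ((θ : ℂ) * Complex.I) • b)) ∧
      (∃ f : (Fin n → ℂ) → ℂ, DifferentiableOn ℂ f Ω ∧
        MemLp f 2 (volume.restrict Ω) ∧ ∃ z ∈ Ω, f z ≠ 0) ∧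
      ∃ k : ℕ, ∃ g : Fin k → (Fin n → ℂ) → ℂ,
        (∀ i, DifferentiableOn ℂ (g i) Ω ∧ MemLp (g i) 2 (volume.restrict Ω)) ∧
        ∀ f : (Fin n → ℂ) → ℂ, DifferentiableOn ℂ f Ω → MemLp f 2 (volume.restrict Ω) →
          ∃ c : Fin k → ℂ, ∀ z ∈ Ω, f z = ∑ i, c i * g i z := by
  have hcont : ContinuousOn (fun z => phi (e z)) (e ⁻¹' Om) := fun z hz =>
    ((good_phi hz).1.comp e.continuous.continuousAt).continuousWithinAt
  refine ⟨2, one_le_two, e ⁻¹' Om, isOpen_dom, ?_, ⟨fun z => phi (e z), hcont, fun c => ?_,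
    fun a b hab => ?_⟩, ⟨fun z => f0 (e z), g_diff, g_memLp, ?_⟩, 1, fun _ z => f0 (e z),
    fun _ => ⟨g_diff, g_memLp⟩, fun f hf hfL => ?_⟩
  · exact e.toHomeomorph.isConnected_preimage.mpr ⟨Om_nonempty, Om_preconnected⟩
  · exact e.toHomeomorph.isCompact_preimage.mpr (sublevel_compact c)
  · have hl : Differentiable ℂ fun ζ : ℂ => e (a + ζ • b) :=
      e.differentiable.comp (f := fun ζ : ℂ => a + ζ • b) (by fun_prop)
    have h := submean (u := fun ζ => phi (e (a + ζ • b)))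
      (hcont.comp (f := fun ζ : ℂ => a + ζ • b) (by fun_prop)
        fun ζ hζ => hab ζ (mem_closedBall_zero_iff.mp hζ)) (by
        intro z hz
        obtain ⟨-, g, h1, h2, h3⟩ := good_phi (hab z (mem_ball_zero_iff.mp hz).le)
        refine ⟨fun ζ => g (e (a + ζ • b)), ?_, h3⟩
        filter_upwards [(hl.continuous.tendsto z).eventually
          (h1.eventually_analyticAt.and h2)] with w hw
        exact ⟨hw.1.differentiableAt.comp w (hl w), hw.2⟩)
    simpa only [zero_smul, add_zero] using h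
  · obtain ⟨p, hp⟩ := Om_nonempty
    refine ⟨e.symm p, by simpa only [mem_preimage, ContinuousLinearEquiv.apply_symm_apply], ?_⟩
    simpa only [ContinuousLinearEquiv.apply_symm_apply] using f0_ne hp
  · rw [memLp_iff hf] at hfL
    obtain ⟨c, hc⟩ := eq_mul_f0 (f := fun p => f (e.symm p))
      (hf.comp e.symm.differentiable.differentiableOn fun p hp => by
        simpa only [mem_preimage, ContinuousLinearEquiv.apply_symm_apply]) hfL.ne
    refine ⟨fun _ => c, fun z hz => ?_⟩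
    simpa only [ContinuousLinearEquiv.symm_apply_apply, Finset.univ_unique, Finset.sum_singleton]
      using hc (e z) hz

end Pool.Agent.S05477
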