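import Pool.Statements.S06021
import Pool.Agent.P.MP_c1aa6a_an.All

set_option autoImplicit false
open MeasureTheory
open Pool Pool.MP_c1aa6a_an

namespace Pool.Agent.S06021

/-- Every orbit equivalence relation of a continuous Polish group action on a Polish space Borel-reduces to isomorphism of ergodic invertible measure-preserving maps of [0,1], i.e. that isomorphism relation is complete (maximal) among such orbit relations. -/
theorem result :
  ∀ μ : Measure ℝ, μ = volume.restrict (Set.Icc (0:ℝ) 1) →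
  ∀ (G : Type) [TopologicalSpace G] [Group G] [IsTopologicalGroup G] [PolishSpace G]
    (X : Type) [TopologicalSpace X] [PolishSpace X] [MeasurableSpace X] [BorelSpace X]
    [MulAction G X] [ContinuousSMul G X],
  ∃ f : X → ℝ → ℝ,
    (∀ x, Ergodic (f x) μ ∧ ∃ g : ℝ → ℝ, MeasurePreserving g μ μ ∧
        (fun t => g (f x t)) =ᵐ[μ] id ∧ (fun t => f x (g t)) =ᵐ[μ] id) ∧
    (∀ A B : Set ℝ, MeasurableSet A → MeasurableSet B →
        Measurable (fun x => μ ((f x) ⁻¹' A ∩ B))) ∧
    (∀ x y : X, (∃ g : G, g • x = y) ↔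
        ∃ φ ψ : ℝ → ℝ, MeasurePreserving φ μ μ ∧ MeasurePreserving ψ μ μ ∧
          (fun t => ψ (φ t)) =ᵐ[μ] id ∧ (fun t => φ (ψ t)) =ᵐ[μ] id ∧
          (fun t => φ (f x t)) =ᵐ[μ] (fun t => f y (φ t))) := by
  exact Pool.Agent.P.MP_c1aa6a_an.main_of Pool.Agent.P.MP_c1aa6a_an.norm_ok
    Pool.Agent.P.MP_c1aa6a_an.model_ok Pool.Agent.P.MP_c1aa6a_an.baf_ok
    Pool.Agent.P.MP_c1aa6a_an.conv_ok Pool.Agent.P.MP_c1aa6a_an.step2_all

end Pool.Agent.S06021
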