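import Pool.Statements.S06033
import Pool.Agent.P.MP_c2be6c_an.Lac

set_option autoImplicit false
open Pool Pool.MP_c2be6c_an

namespace Pool.Agent.S06033

/-- Some complex Hilbert space has a family of closed subspaces with all of the following properties. It is a distributive complemented lattice under intersection and closed span, complete as a lattice, and has a strongly closed set of projections. Yet some closed subspace outside the family is invarian -/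
theorem result :
  ∃ (H : Type) (_ : NormedAddCommGroup H) (_ : InnerProductSpace ℂ H) (_ : CompleteSpace H)
    (E : Set (Submodule ℂ H)),
    (∀ M ∈ E, IsClosed (M : Set H)) ∧
    (⊥ : Submodule ℂ H) ∈ E ∧ (⊤ : Submodule ℂ H) ∈ E ∧
    (∀ A ∈ E, ∀ B ∈ E, A ⊓ B ∈ E) ∧
    (∀ A ∈ E, ∀ B ∈ E, (A ⊔ B).topologicalClosure ∈ E) ∧
    (∀ A ∈ E, ∀ B ∈ E, ∀ C ∈ E,
      A ⊓ (B ⊔ C).topologicalClosure = ((A ⊓ B) ⊔ (A ⊓ C)).topologicalClosure) ∧
    (∀ A ∈ E, ∃ B ∈ E, A ⊓ B = ⊥ ∧ (A ⊔ B).topologicalClosure = ⊤) ∧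
    (∀ S ⊆ E, ∃ M ∈ E, (∀ N ∈ S, N ≤ M) ∧ ∀ M' ∈ E, (∀ N ∈ S, N ≤ M') → M ≤ M') ∧
    (∀ M : Submodule ℂ H, IsClosed (M : Set H) →
      (∀ s : Finset H, ∀ ε : ℝ, 0 < ε → ∃ N ∈ E, ∀ x ∈ s, ∀ y z : H,
        y ∈ N → x - y ∈ N.orthogonal → z ∈ M → x - z ∈ M.orthogonal → ‖y - z‖ < ε) →
      M ∈ E) ∧
    ∃ M : Submodule ℂ H, IsClosed (M : Set H) ∧ M ∉ E ∧
      ∀ T : H →L[ℂ] H, (∀ N ∈ E, ∀ x ∈ N, T x ∈ N) → ∀ x ∈ M, T x ∈ M := by
  obtain ⟨D⟩ := Pool.Agent.P.MP_c2be6c_an.exists_setup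
  obtain ⟨h1, h2, h3, h4, h5, h6, h7⟩ := D.main
  exact ⟨_, inferInstance, inferInstance, inferInstance, D.E, h1, h2, h3, h4, h5, h6, h7,
    D.complete, D.strongly_closed, D.not_reflexive⟩

end Pool.Agent.S06033
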