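import Pool.Statements.S07205
import Pool.Agent.P.MP_0f6975_co.Geom

set_option autoImplicit false
open Pool Pool.MP_0f6975_co

namespace Pool.Agent.S07205

/-- For points in strictly convex position in the plane and any pairwise distance t, if k distinct distances are at least t, then the graph joining vertices at distance at least t can be properly colored with 2k+1 colors. -/
theorem result :
    ∀ (n : ℕ) (p : Fin n → EuclideanSpace ℝ (Fin 2)),
      (∀ i : Fin n, p i ∉ convexHull ℝ (p '' {j : Fin n | j ≠ i})) →
      ∀ i j : Fin n, i ≠ j →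
        (SimpleGraph.fromRel
            (fun a b : Fin n => dist (p i) (p j) ≤ dist (p a) (p b))).Colorable
          (2 * ((Finset.univ.filter
                  (fun q : Fin n × Fin n =>
                    q.1 ≠ q.2 ∧ dist (p i) (p j) ≤ dist (p q.1) (p q.2))).image
                  (fun q : Fin n × Fin n => dist (p q.1) (p q.2))).card + 1) := by
  intro n p hconv i j hij
  set K : Finset ℝ := (Finset.univ.filter
      (fun q : Fin n × Fin n =>
        q.1 ≠ q.2 ∧ dist (p i) (p j) ≤ dist (p q.1) (p q.2))).image
      (fun q : Fin n × Fin n => dist (p q.1) (p q.2)) with hKdef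
  have hK : ∀ a b : Fin n, a ≠ b → dist (p i) (p j) ≤ dist (p a) (p b) → dist (p a) (p b) ∈ K := by
    intro a b hab h
    exact Finset.mem_image.mpr ⟨(a, b), Finset.mem_filter.mpr ⟨Finset.mem_univ _, hab, h⟩, rfl⟩
  have hK0 : 0 < K.card := Finset.card_pos.mpr ⟨_, hK i j hij le_rfl⟩
  have nq : Pool.Agent.P.MP_0f6975_co.NoQuad (fun a => p a 0) (fun a => p a 1) := by
    intro a b c e f hb hc he hf α β γ δ h1 h2 h3 h4 h5 h6 h7
    apply hconv a
    have hmem : ∀ z, z ≠ a → p z ∈ convexHull ℝ (p '' {j : Fin n | j ≠ a}) :=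
      fun z hz => subset_convexHull ℝ _ ⟨z, hz, rfl⟩
    have hsum := (convex_convexHull ℝ (p '' {j : Fin n | j ≠ a})).sum_mem
      (t := (Finset.univ : Finset (Fin 4))) (w := ![α, β, γ, δ]) (z := ![p b, p c, p e, p f])
      (by intro s _; fin_cases s <;> simpa)
      (by simpa [Fin.sum_univ_four] using h5)
      (by
        intro s _
        fin_cases s
        · exact hmem b hb
        · exact hmem c hc
        · exact hmem e he
        · exact hmem f hf)
    have heq : p a = ∑ s : Fin 4, (![α, β, γ, δ] : Fin 4 → ℝ) s •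
        (![p b, p c, p e, p f] : Fin 4 → EuclideanSpace ℝ (Fin 2)) s := by
      ext s
      fin_cases s
      · simpa [Fin.sum_univ_four] using h6
      · simpa [Fin.sum_univ_four] using h7
    rw [heq]
    exact hsum
  obtain ⟨c, hc1, hc2⟩ := Pool.Agent.P.MP_0f6975_co.color_coords (fun a => p a 0) (fun a => p a 1)
    (fun a b => dist (p a) (p b)) (fun a b => dist_nonneg)
    (fun a b => by
      rw [EuclideanSpace.dist_eq, Real.sq_sqrt (by positivity), Fin.sum_univ_two, Real.dist_eq,
        Real.dist_eq, sq_abs, sq_abs]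
      ring)
    nq i j hij (dist (p i) (p j)) K hK hK0
  refine ⟨SimpleGraph.Coloring.mk (fun a => (⟨c a, hc1 a⟩ : Fin (2 * K.card + 1))) ?_⟩
  intro a b hab heq
  rw [SimpleGraph.fromRel_adj] at hab
  obtain ⟨hne, h⟩ := hab
  have hcab : c a = c b := by simpa using heq
  rcases h with h | h
  · exact hc2 a b hne h hcab
  · exact hc2 b a hne.symm h hcab.symm

end Pool.Agent.S07205
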