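import Pool.Statements.S07982
import Pool.Agent.P.MP_324c94_co.Main
import Pool.Agent.P.MP_324c94_co.UB
import Pool.Agent.P.MP_324c94_co.SL
import Pool.Agent.P.MP_324c94_co.SEL
import Pool.Agent.P.MP_324c94_co.VK
import Pool.Agent.P.MP_324c94_co.LB

set_option autoImplicit false
open Pool Pool.MP_324c94_co

namespace Pool.Agent.S07982

/-- The negation of the preceding statement: For every ε>0 there is N such that every finite graph with crossing number at least N has an edge whose deletion leaves crossing number at least (1−ε) times the original. -/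
theorem result :
    ¬ (∀ ε : ℝ, 0 < ε → ∃ N : ℕ, ∀ (V : Type), Finite V → ∀ (cr : SimpleGraph V → ℕ),
    (∀ H : SimpleGraph V, cr H = sInf {k : ℕ | ∃ (φ : V → ℂ) (γ : Sym2 V → ℝ → ℂ),
      Function.Injective φ ∧
      (∀ e : Sym2 V, e ∈ H.edgeSet →
        ContinuousOn (γ e) (Set.Icc (0 : ℝ) 1) ∧
        Set.InjOn (γ e) (Set.Icc (0 : ℝ) 1) ∧
        (∃ u v : V, e = s(u, v) ∧ γ e 0 = φ u ∧ γ e 1 = φ v) ∧
        ∀ t : ℝ, 0 < t → t < 1 → ∀ w : V, γ e t ≠ φ w) ∧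
      Set.encard {p : Sym2 V × Sym2 V × ℂ | p.1 ∈ H.edgeSet ∧ p.2.1 ∈ H.edgeSet ∧
        p.1 ≠ p.2.1 ∧
        (∃ s : ℝ, 0 < s ∧ s < 1 ∧ γ p.1 s = p.2.2) ∧
        (∃ t : ℝ, 0 < t ∧ t < 1 ∧ γ p.2.1 t = p.2.2)}
        = 2 * (k : ℕ∞)}) →
    ∀ G : SimpleGraph V, N ≤ cr G →
      ∃ e : Sym2 V, e ∈ G.edgeSet ∧
        (1 - ε) * (cr G : ℝ) ≤ (cr (G.deleteEdges {e}) : ℝ)) := by
  exact Pool.Agent.P.MP_324c94_co.main Pool.Agent.P.MP_324c94_co.ne Pool.Agent.P.MP_324c94_co.sel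
    (Pool.Agent.P.MP_324c94_co.lb Pool.Agent.P.MP_324c94_co.k33 Pool.Agent.P.MP_324c94_co.k5)
    (Pool.Agent.P.MP_324c94_co.ub Pool.Agent.P.MP_324c94_co.sl)

end Pool.Agent.S07982
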