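import Pool.Statements.S08070
import Pool.Agent.P.MP_358d01_co.Fur.TMOM
import Pool.Agent.P.MP_358d01_co.Fur.TIND
import Pool.Agent.P.MP_358d01_co.Fur.TPLAY
import Pool.Agent.P.MP_358d01_co.Fur.TLEAF
import Pool.Agent.P.MP_358d01_co.Fur.TPRN
import Pool.Agent.P.MP_358d01_co.Fur.TAON
import Pool.Agent.P.MP_358d01_co.Fur.TSKIP
import Pool.Agent.P.MP_358d01_co.Fur.TBRA
import Pool.Agent.P.MP_358d01_co.Fur.TINI
import Pool.Agent.P.MP_358d01_co.Fur.TCERT
import Pool.Agent.P.MP_358d01_co.Fur.TSLO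
import Pool.Agent.P.MP_358d01_co.Fur.TNUM
import Pool.Agent.P.MP_358d01_co.Fur.TGAD
import Pool.Agent.P.MP_358d01_co.Fur.TONE
import Pool.Agent.P.MP_358d01_co.Fur.TPAR
import Pool.Agent.P.MP_358d01_co.Fur.TGRP
import Pool.Agent.P.MP_358d01_co.Fur.TCLS
import Pool.Agent.P.MP_358d01_co.Fur.TALL
import Pool.Agent.P.MP_358d01_co.Fur.TTHK
import Pool.Agent.P.MP_358d01_co.Fur.TGEN
import Pool.Agent.P.MP_358d01_co.Fur.TEXP
import Pool.Agent.P.MP_358d01_co.Fur.TSET
import Pool.Agent.P.MP_358d01_co.Fur.TARI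
import Pool.Agent.P.MP_358d01_co.Fur.Fin3

set_option autoImplicit false
open Pool Pool.MP_358d01_co

namespace Pool.Agent.S08070

/-- The negation of the preceding statement: For every d ≥ 3 there is C such that, for all large n, any finite set in R^d in general position with at least exp(C n^(1/(d-1))) points contains n points none of which lies in the convex hull of the others. -/
theorem result :
    ¬ (∀ d : ℕ, 3 ≤ d → ∃ C : ℝ, ∃ N₀ : ℕ, ∀ n : ℕ, N₀ ≤ n →
      ∀ S : Finset (EuclideanSpace ℝ (Fin d)),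
        (∀ T ⊆ S, T.card ≤ d + 1 →
          AffineIndependent ℝ
            (fun x : (T : Set (EuclideanSpace ℝ (Fin d))) => (x : EuclideanSpace ℝ (Fin d)))) →
        Real.exp (C * (n : ℝ) ^ (1 / ((d : ℝ) - 1))) ≤ (S.card : ℝ) →
        ∃ T ⊆ S, T.card = n ∧
          ∀ p ∈ T, p ∉ convexHull ℝ ((T.erase p : Finset (EuclideanSpace ℝ (Fin d))) :
            Set (EuclideanSpace ℝ (Fin d)))) := by
  open Pool.Agent.Fur in
  exact not_main
    (p_GAD (p_PLAY p_MOM p_IND) p_LEAF (p_CERT p_PRN (p_SKIP p_AON) (p_BRA p_AON) p_INI) p_SLO p_NUM)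
    (p_SET p_PAR (p_ALL (p_CLS (p_GRP p_ONE))) p_THK p_GEN p_EXP) p_ARI

end Pool.Agent.S08070
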