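import Pool.Statements.S08307
import Pool.Agent.P.MP_3f5ce9_co.W.AMain
import Pool.Agent.P.MP_3f5ce9_co.W.BMain
import Pool.Agent.P.MP_3f5ce9_co.W.HMain
import Pool.Agent.P.MP_3f5ce9_co.W.Fin1

set_option autoImplicit false
open Pool Pool.MP_3f5ce9_co

namespace Pool.Agent.S08307

/-- For every matroid represented by a totally unimodular real matrix, any two sequences of m≥2 bases using each element equally often are connected by permutations and unique symmetric single-element base exchanges. -/
theorem result :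
    ∀ (n : ℕ) (M : Matroid (Fin n)), M.E = Set.univ →
      (∃ (r : ℕ) (A : Matrix (Fin r) (Fin n) ℝ), A.IsTotallyUnimodular ∧
        ∀ I : Finset (Fin n),
          (M.Indep (↑I : Set (Fin n)) ↔ LinearIndependent ℝ (fun i : I => A.transpose (i : Fin n)))) →
      ∀ (m : ℕ), 2 ≤ m →
      ∀ (S T : Fin m → Finset (Fin n)),
        (∀ i, M.IsBase (↑(S i) : Set (Fin n))) →
        (∀ i, M.IsBase (↑(T i) : Set (Fin n))) →
        (∀ e : Fin n, (Finset.univ.filter (fun i => e ∈ S i)).card
                        = (Finset.univ.filter (fun i => e ∈ T i)).card) →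
        Relation.ReflTransGen
          (fun P Q : Fin m → Finset (Fin n) =>
            (∃ σ : Equiv.Perm (Fin m), Q = fun k => P (σ k)) ∨
            (∃ i j : Fin m, i < j ∧ ∃ x y : Fin n, x ∈ P i ∧ y ∈ P j ∧
              (∀ z ∈ P j,
                ((M.IsBase (↑(insert z ((P i).erase x)) : Set (Fin n)) ∧
                  M.IsBase (↑(insert x ((P j).erase z)) : Set (Fin n))) ↔ z = y)) ∧
              Q = Function.update (Function.update P i (insert y ((P i).erase x))) j
                    (insert x ((P j).erase y))))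
          S T := by
  rintro n M - ⟨r, A, hA, hM⟩ m hm S T hS hT hc
  obtain ⟨N, hN, hE, hI⟩ := Pool.Agent.P.MP_3f5ce9_co.exists_bm_of_tu A hA
  have hB := Pool.Agent.P.MP_3f5ce9_co.isBase_iff_of_indep M N hE fun I => (hM I).trans (hI I).symm
  have h1 := Pool.Agent.P.MP_3f5ce9_co.final_reach
    (Pool.Agent.P.MP_3f5ce9_co.BM.ueall_of_reg Pool.Agent.P.MP_3f5ce9_co.Gr.conn_all)
    Pool.Agent.P.MP_3f5ce9_co.BM.te_of_reg hN hm (fun i => (S i).map Fin.valEmbedding)
    (fun i => (T i).map Fin.valEmbedding) (fun i => (hB _).1 (hS i)) (fun i => (hB _).1 (hT i))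
    (fun e => by
      by_cases he : e < n
      · have h := hc ⟨e, he⟩
        have k : ∀ F : Finset (Fin n), e ∈ F.map Fin.valEmbedding ↔ (⟨e, he⟩ : Fin n) ∈ F :=
          fun F => Finset.mem_map' (a := (⟨e, he⟩ : Fin n)) Fin.valEmbedding
        simpa only [k] using h
      · have k : ∀ F : Finset (Fin n), ¬ e ∈ F.map Fin.valEmbedding := fun F hF => by
          obtain ⟨x, -, rfl⟩ := Finset.mem_map.1 hF
          exact he x.2
        simp only [k])
  have h2 := Pool.Agent.P.MP_3f5ce9_co.uany_transfer (fun F => M.IsBase (↑F : Set (Fin n)))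
    N.IsBase hB (fun F hF => hE ▸ hF.subset) S T hS h1
  exact Pool.Agent.P.MP_3f5ce9_co.rt_lift id h2 fun P Q h => h.ordered

end Pool.Agent.S08307
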