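import Pool.Statements.S08365
import Pool.Agent.P.MP_4197d5_co.Main

set_option autoImplicit false
open Pool Pool.MP_4197d5_co

namespace Pool.Agent.S08365

/-- For κ ≥ 1, in any finite graph that is κ-connected and (κ+1)-edge-connected, every set of κ pairwise vertex-disjoint edges lies on a single cycle. -/
theorem result :
    ∀ (V : Type) [Fintype V] (G : SimpleGraph V) (κ : ℕ), 1 ≤ κ →
      κ < Fintype.card V →
      (∀ S : Finset V, S.card < κ → (G.induce ((↑S : Set V)ᶜ)).Connected) →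
      (∀ F : Finset (Sym2 V), F.card ≤ κ →
          (G.deleteEdges (↑F : Set (Sym2 V))).Connected) →
      ∀ M : Finset (Sym2 V), (↑M : Set (Sym2 V)) ⊆ G.edgeSet → M.card = κ →
        (∀ e ∈ M, ∀ f ∈ M, e ≠ f → ∀ x ∈ e, x ∉ f) →
        ∃ (v : V) (p : G.Walk v v), p.IsCycle ∧ ∀ e ∈ M, e ∈ p.edges := by
  intro V _ G κ h1 h2 h3 h4 M h5 h6 h7
  obtain ⟨ι, _, t, l, hC, hL, hM⟩ := P.MP_4197d5_co.reduction G κ h1 h2 h3 h4 M h5 h6 h7
  haveI : Nonempty ι := Fintype.card_pos_iff.1 (by rw [hC.card]; omega)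
  obtain ⟨v, p, hp, he⟩ := P.MP_4197d5_co.sol_cycle G hC.symm hC.hl hC.noL (fun _ _ h => h.1) hL
    (P.MP_4197d5_co.sol_of_ctx _ _ hC rfl)
  refine ⟨v, p, hp, fun e he' => ?_⟩
  obtain ⟨i, rfl⟩ := hM e he'
  exact he i

end Pool.Agent.S08365
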