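import Pool.Statements.S08417
import Pool.Agent.P.MP_439f1f_co.Fin1
import Pool.Agent.P.MP_439f1f_co.Rk2

set_option autoImplicit false
open Pool Pool.MP_439f1f_co

namespace Pool.Agent.S08417

/-- For every k there is a finite graph that is not Hamiltonian, becomes Hamiltonian when any missing edge is added, contains a cycle, and has girth at least k. -/
theorem result : ∀ k : ℕ, ∃ n : ℕ, ∃ G : SimpleGraph (Fin n),
    ¬ G.IsHamiltonian ∧
    (∀ u v : Fin n, u ≠ v → ¬ G.Adj u v →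
      (G ⊔ SimpleGraph.fromEdgeSet {s(u, v)}).IsHamiltonian) ∧
    ¬ G.IsAcyclic ∧ k ≤ G.girth :=
  Pool.Agent.P.MP_439f1f_co.mnh_of_tabs fun _ _ _ _ _ _ _ _ _ _ _ _ V _ =>
    ⟨fun s y _ _ _ a b => V.sv_tab s y a b,
      fun s y _ _ a _ _ _ _ _ b c d e f g => V.sv_gen s y a b c d e f g⟩

end Pool.Agent.S08417
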