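import Pool.Statements.S08479
import Pool.Agent.P.MP_463344_co.Main

set_option autoImplicit false
open Pool Pool.MP_463344_co

namespace Pool.Agent.S08479

/-- For every finite digraph D and k ≥ 1, some partition of the vertices into directed paths has sum of min(path size, k) at most the number of vertices coloured by some partial proper k-colouring of D. -/
theorem result :
    ∀ (V : Type) [Fintype V] (D : Digraph V) (k : ℕ), 0 < k →
      ∃ (L : List (List V)) (S : Finset V) (c : V → Fin k),
        (∀ l ∈ L, l ≠ [] ∧ ∀ p ∈ l.zip l.tail, D.Adj p.1 p.2) ∧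
        L.flatten.Nodup ∧
        (∀ v : V, v ∈ L.flatten) ∧
        (∀ u ∈ S, ∀ v ∈ S, u ≠ v → c u = c v → ¬ D.Adj u v) ∧
        (L.map (fun l => min l.length k)).sum ≤ S.card := by
  intro V _ D k hk
  exact Pool.Agent.P.MP_463344_co.linial D.Adj k hk

end Pool.Agent.S08479
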