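import Pool.Statements.S08636
import Pool.Agent.P.MP_4cdbfb_co.Final

set_option autoImplicit false
open Pool Pool.MP_4cdbfb_co

namespace Pool.Agent.S08636

/-- The negation of the preceding statement: For every n there is f such that any two finite graphs G, H with chromatic number at least f have tensor (categorical) product G×H of chromatic number at least n. -/
theorem result :
    ¬ (∀ n : ℕ, ∃ f : ℕ, ∀ (V W : Type) [Finite V] [Finite W]
      (G : SimpleGraph V) (H : SimpleGraph W),
      (f : ℕ∞) ≤ G.chromaticNumber →
      (f : ℕ∞) ≤ H.chromaticNumber →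
      (n : ℕ∞) ≤ (SimpleGraph.comap (Prod.fst : V × W → V) G ⊓
                  SimpleGraph.comap (Prod.snd : V × W → W) H).chromaticNumber) := by
  intro h
  obtain ⟨f, hf⟩ := h 17
  obtain ⟨V, W, i1, i2, G, H, g1, g2, g3⟩ := Pool.Agent.P.MP_4cdbfb_co.Z3.bounded f
  have := (hf V W G H g1 g2).trans g3.chromaticNumber_le
  exact absurd (Nat.cast_le.mp this) (by norm_num)

end Pool.Agent.S08636
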