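import Pool.Statements.S10086
import Pool.Agent.P.MP_8e531e_co.Main

set_option autoImplicit false
open Pool Pool.MP_8e531e_co

namespace Pool.Agent.S10086

/-- The negation of the preceding statement: Every finite nonempty graph has a fractional colouring whose total weight is at most, for some maximal clique X, the average over v in X of (deg v + largest clique size through v + 1)/2. -/
theorem result :
    ¬ (∀ (V : Type) [Fintype V] [DecidableEq V] [Nonempty V]
      (G : SimpleGraph V) [DecidableRel G.Adj],
      ∃ w : Finset V → ℝ,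
        (∀ s, 0 ≤ w s) ∧
        (∀ s : Finset V, ¬ G.IsIndepSet (s : Set V) → w s = 0) ∧
        (∀ v : V, 1 ≤ ∑ s ∈ Finset.univ.filter (fun s : Finset V => v ∈ s), w s) ∧
        ∃ X : Finset V, G.IsClique (X : Set V) ∧
          (∀ Y : Finset V, G.IsClique (Y : Set V) → X ⊆ Y → Y = X) ∧
          ∑ s, w s ≤
            (∑ v ∈ X, ((G.degree v : ℝ) +
                ((sSup {n : ℕ | ∃ s : Finset V, G.IsNClique n s ∧ v ∈ s} : ℕ) : ℝ)
                + 1) / 2) / (X.card : ℝ)) := by
  exact Pool.Agent.P.MP_8e531e_co.cube_counter 50 32768 2048 (by norm_num) (by norm_num)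
    (by norm_num) (by norm_num)

end Pool.Agent.S10086
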