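import Pool.Statements.S10398
import Pool.Agent.P.MP_9ca318_co.BL.Glue
import Pool.Agent.P.MP_9ca318_co.BL.TFIN
import Pool.Agent.P.MP_9ca318_co.BL.TRZ
import Pool.Agent.P.MP_9ca318_co.BL.TRELU
import Pool.Agent.P.MP_9ca318_co.BL.TDENS
import Pool.Agent.P.MP_9ca318_co.BL.TAPPROX
import Pool.Agent.P.MP_9ca318_co.BL.TGATE
import Pool.Agent.P.MP_9ca318_co.BL.TIMP
import Pool.Agent.P.MP_9ca318_co.BL.TSUS
import Pool.Agent.P.MP_9ca318_co.BL.TPA
import Pool.Agent.P.MP_9ca318_co.BL.TPB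
import Pool.Agent.P.MP_9ca318_co.BL.TSIG
import Pool.Agent.P.MP_9ca318_co.BL.TT1
import Pool.Agent.P.MP_9ca318_co.BL.TT2
import Pool.Agent.P.MP_9ca318_co.BL.TG14
import Pool.Agent.P.MP_9ca318_co.BL.TG23
import Pool.Agent.P.MP_9ca318_co.BL.TG5
import Pool.Agent.P.MP_9ca318_co.BL.TG6
import Pool.Agent.P.MP_9ca318_co.BL.TGEN
import Pool.Agent.P.MP_9ca318_co.BL.TGAM
import Pool.Agent.P.MP_9ca318_co.BL.TBANDS
import Pool.Agent.P.MP_9ca318_co.BL.TWT1
import Pool.Agent.P.MP_9ca318_co.BL.TWT2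
import Pool.Agent.P.MP_9ca318_co.BL.TPROD
import Pool.Agent.P.MP_9ca318_co.BL.TLOOP
import Pool.Agent.P.MP_9ca318_co.BL.TBAND
import Pool.Agent.P.MP_9ca318_co.BL.TUSC
import Pool.Agent.P.MP_9ca318_co.BL.TCHART
import Pool.Agent.P.MP_9ca318_co.BL.TZIG
import Pool.Agent.P.MP_9ca318_co.BL.TEMB
import Pool.Agent.P.MP_9ca318_co.BL.TTUBE
import Pool.Agent.P.MP_9ca318_co.BL.TBR
import Pool.Agent.P.MP_9ca318_co.BL.TLS1
import Pool.Agent.P.MP_9ca318_co.BL.TLS
import Pool.Agent.P.MP_9ca318_co.BL.TCOC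
import Pool.Agent.P.MP_9ca318_co.BL.TPFUN
import Pool.Agent.P.MP_9ca318_co.BL.TONE
import Pool.Agent.P.MP_9ca318_co.BL.TSYS

set_option autoImplicit false
open Pool Pool.MP_9ca318_co

namespace Pool.Agent.S10398

/-- The negation of the preceding statement: For all r, d: given d+1 pairwise disjoint finite color classes in R^d, each with at least r points, one can pick r pairwise disjoint rainbow sets, each with one point of each color, whose convex hulls share a common point. -/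
theorem result :
    ¬ (∀ (r d : ℕ) (C : Fin (d + 1) → Finset (EuclideanSpace ℝ (Fin d))),
      Pairwise (fun i j => Disjoint (C i) (C j)) →
      (∀ i, r ≤ (C i).card) →
      ∃ f : Fin r → Fin (d + 1) → EuclideanSpace ℝ (Fin d),
        (∀ j i, f j i ∈ C i) ∧
        Function.Injective (fun p : Fin r × Fin (d + 1) => f p.1 p.2) ∧
        ∃ x : EuclideanSpace ℝ (Fin d), ∀ j, x ∈ convexHull ℝ (Set.range (f j))) := by
  open Pool.Agent.P.MP_9ca318_co.BL in
  exact glue s_fin (s_gate (s_approx s_rzlin s_rzadd s_rzmap s_relu s_dens)) s_imp s_sus s_trans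
    s_pa s_sigc (s_t1 s_pa s_pb) (s_t2 s_pa s_pb s_pc) (s_gen s_g1 (s_g5 s_g2 s_g3 s_g4) s_g6)
    (s_gam s_supp) (s_bands s_supp) s_wt1 s_wt2
    (s_sys (s_loop s_prod) s_band (s_sys1 (s_loop2 (s_loop s_prod)) s_usc s_rank
      (s_one (s_chart s_usc s_rank) (s_coc (s_ls (s_ls1 s_num s_emb s_zig s_tube s_br))) s_pfun)))
    s_asm

end Pool.Agent.S10398
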