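import Pool.Statements.S10814
import Pool.Agent.P.MP_af70e5_co.Inst

set_option autoImplicit false
open Pool Pool.MP_af70e5_co

namespace Pool.Agent.S10814

/-- The negation of the preceding statement: For every finite multigraph G: fractional packing of one-R-edge circuits implies an integer packing, for all R and eulerian parallel-copy additions, iff integer packing is equivalent to the even 0-1-∞ distance inequality, for all of them. -/
theorem result :
    ¬ (∀ (V E : Type) [Fintype V] [DecidableEq V] [Fintype E] [DecidableEq E] (s t : E → V),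
    (∀ (R : Finset E) (E' : Type) [Fintype E'] [DecidableEq E'] (φ : E' → E),
      Function.Surjective φ →
      (∀ v : V, Even ((Finset.univ.filter (fun e => s (φ e) = v)).card
          + (Finset.univ.filter (fun e => t (φ e) = v)).card)) →
      ((∃ f : E' → Finset E',
          (∀ r, φ r ∈ R →
            ((f r).Nonempty ∧
              (∀ v : V, Even (((f r).filter (fun e => s (φ e) = v)).card
                + ((f r).filter (fun e => t (φ e) = v)).card)) ∧
              ∀ D : Finset E', D ⊆ f r → D.Nonempty →
                (∀ v : V, Even ((D.filter (fun e => s (φ e) = v)).card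
                  + (D.filter (fun e => t (φ e) = v)).card)) → D = f r) ∧
            (f r).filter (fun e => φ e ∈ R) = {r}) ∧
          ∀ r₁ r₂, φ r₁ ∈ R → φ r₂ ∈ R → r₁ ≠ r₂ → Disjoint (f r₁) (f r₂))
        ↔
        (∃ w : Finset E' → ℝ,
          (∀ C, 0 ≤ w C) ∧
          (∀ C, w C ≠ 0 →
            (C.Nonempty ∧
              (∀ v : V, Even ((C.filter (fun e => s (φ e) = v)).card
                + (C.filter (fun e => t (φ e) = v)).card)) ∧
              ∀ D : Finset E', D ⊆ C → D.Nonempty →
                (∀ v : V, Even ((D.filter (fun e => s (φ e) = v)).card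
                  + (D.filter (fun e => t (φ e) = v)).card)) → D = C) ∧
            (C.filter (fun e => φ e ∈ R)).card = 1) ∧
          (∀ e, φ e ∈ R → (∑ C : Finset E', if e ∈ C then w C else 0) = 1) ∧
          (∀ e, φ e ∉ R → (∑ C : Finset E', if e ∈ C then w C else 0) ≤ 1))))
    ↔
    (∀ (R : Finset E) (E' : Type) [Fintype E'] [DecidableEq E'] (φ : E' → E),
      Function.Surjective φ →
      (∀ v : V, Even ((Finset.univ.filter (fun e => s (φ e) = v)).card
          + (Finset.univ.filter (fun e => t (φ e) = v)).card)) →
      ((∃ f : E' → Finset E',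
          (∀ r, φ r ∈ R →
            ((f r).Nonempty ∧
              (∀ v : V, Even (((f r).filter (fun e => s (φ e) = v)).card
                + ((f r).filter (fun e => t (φ e) = v)).card)) ∧
              ∀ D : Finset E', D ⊆ f r → D.Nonempty →
                (∀ v : V, Even ((D.filter (fun e => s (φ e) = v)).card
                  + (D.filter (fun e => t (φ e) = v)).card)) → D = f r) ∧
            (f r).filter (fun e => φ e ∈ R) = {r}) ∧
          ∀ r₁ r₂, φ r₁ ∈ R → φ r₂ ∈ R → r₁ ≠ r₂ → Disjoint (f r₁) (f r₂))
        ↔
        (∀ l : E' → ENat,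
          (∀ e, l e = 0 ∨ l e = 1 ∨ l e = ⊤) →
          (∀ C : Finset E',
            (C.Nonempty ∧
              (∀ v : V, Even ((C.filter (fun e => s (φ e) = v)).card
                + (C.filter (fun e => t (φ e) = v)).card)) ∧
              ∀ D : Finset E', D ⊆ C → D.Nonempty →
                (∀ v : V, Even ((D.filter (fun e => s (φ e) = v)).card
                  + (D.filter (fun e => t (φ e) = v)).card)) → D = C) →
            (∀ e ∈ C, φ e ∉ R) → Even (∑ e ∈ C, l e)) →
          (∑ r ∈ Finset.univ.filter (fun e => φ e ∈ R),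
              (⨅ (P : Finset E') (_ : (∀ x ∈ P, φ x ∉ R) ∧
                  Relation.ReflTransGen
                    (fun a b => ∃ x ∈ P, (s (φ x) = a ∧ t (φ x) = b) ∨ (s (φ x) = b ∧ t (φ x) = a))
                    (s (φ r)) (t (φ r))), ∑ x ∈ P, l x))
            ≤
          (∑ r ∈ Finset.univ.filter (fun e => φ e ∉ R),
              (⨅ (P : Finset E') (_ : (∀ x ∈ P, φ x ∉ R) ∧
                  Relation.ReflTransGen
                    (fun a b => ∃ x ∈ P, (s (φ x) = a ∧ t (φ x) = b) ∨ (s (φ x) = b ∧ t (φ x) = a))
                    (s (φ r)) (t (φ r))), ∑ x ∈ P, l x)))))) := by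
  intro h
  have h1 := (h (Fin 7) (Fin 14) P.MP_af70e5_co.sv P.MP_af70e5_co.tv).1 (by
    intro R E' _ _ φ hφ hE
    constructor
    · rintro ⟨f, h1, h2⟩
      exact P.MP_af70e5_co.frac_of_packing φ R _ f h1 h2
    · rintro ⟨w, h0, h1, h2, h3⟩
      exact P.MP_af70e5_co.packing_of_frac φ R hφ hE w h0 h1 h2 h3)
  exact P.MP_af70e5_co.no_packing ((h1 P.MP_af70e5_co.R₀ (Fin 19) P.MP_af70e5_co.φ₀
    P.MP_af70e5_co.surj₀ P.MP_af70e5_co.euler₀).2 P.MP_af70e5_co.dist_ineq)

end Pool.Agent.S10814
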