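import Pool.Statements.S10941
import Pool.Agent.P.MP_b50a78_co.Fin

set_option autoImplicit false
open Pool Pool.MP_b50a78_co

namespace Pool.Agent.S10941

/-- For every finitely supported face sequence satisfying Eberhard's equation with sum S, each n ≥ 3S whose parity class is eventually all realizable is realizable: some simple convex 3-polytope has exactly n hexagons and p_k k-gons for all other k. -/
theorem result :
  ∀ (p : ℕ → ℕ) (N : ℕ),
    (∀ k : ℕ, k < 3 ∨ k = 6 ∨ N ≤ k → p k = 0) →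
    3 * p 3 + 2 * p 4 + p 5 = 12 + ∑ k ∈ Finset.Ico 7 N, (k - 6) * p k →
    ∀ Aug : ℕ → Prop,
      (∀ m : ℕ, Aug m ↔
        ∃ P : Finset (EuclideanSpace ℝ (Fin 3)),
          (interior (convexHull ℝ (↑P : Set (EuclideanSpace ℝ (Fin 3))))).Nonempty ∧
          (∀ v ∈ Set.extremePoints ℝ (convexHull ℝ (↑P : Set (EuclideanSpace ℝ (Fin 3)))),
            {F : Set (EuclideanSpace ℝ (Fin 3)) |
              (∃ l : EuclideanSpace ℝ (Fin 3) →L[ℝ] ℝ, l ≠ 0 ∧
                F = {x : EuclideanSpace ℝ (Fin 3) |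
                  x ∈ convexHull ℝ (↑P : Set (EuclideanSpace ℝ (Fin 3))) ∧
                  ∀ y ∈ convexHull ℝ (↑P : Set (EuclideanSpace ℝ (Fin 3))), l y ≤ l x} ∧
                Module.finrank ℝ (vectorSpan ℝ F) = 2) ∧ v ∈ F}.ncard = 3) ∧
          (∀ k : ℕ,
            {F : Set (EuclideanSpace ℝ (Fin 3)) |
              (∃ l : EuclideanSpace ℝ (Fin 3) →L[ℝ] ℝ, l ≠ 0 ∧
                F = {x : EuclideanSpace ℝ (Fin 3) |
                  x ∈ convexHull ℝ (↑P : Set (EuclideanSpace ℝ (Fin 3))) ∧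
                  ∀ y ∈ convexHull ℝ (↑P : Set (EuclideanSpace ℝ (Fin 3))), l y ≤ l x} ∧
                Module.finrank ℝ (vectorSpan ℝ F) = 2) ∧
              (Set.extremePoints ℝ F).ncard = k}.ncard = (if k = 6 then m else p k))) →
      ∀ n : ℕ, 3 * (∑ k ∈ Finset.range N, p k) ≤ n →
        (∃ M : ℕ, ∀ m : ℕ, M ≤ m → m % 2 = n % 2 → Aug m) → Aug n := by
  intro p N h0 h1 Aug hA n hn hM
  obtain ⟨M, hM⟩ := hM
  exact (hA n).2 (Pool.Agent.P.MP_b50a78_co.main p N h0 h1 n hn (n + 2 * M) (by omega)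
    ((hA _).1 (hM _ (by omega) (by omega))))

end Pool.Agent.S10941
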