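import Pool.Statements.S11053
import Pool.Agent.P.MP_b9c629_co.Main

set_option autoImplicit false
open Pool Pool.MP_b9c629_co

namespace Pool.Agent.S11053

/-- There is a constant k such that every finite planar point set A has a set of at most floor(∣A∣/2) points meeting every closed axis-parallel rectangle that contains at least k points of A. -/
theorem result : ∃ k : ℕ, ∀ A : Finset (ℝ × ℝ), ∃ A' : Finset (ℝ × ℝ),
    A'.card ≤ A.card / 2 ∧
    ∀ p q : ℝ × ℝ,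
      k ≤ ({x ∈ A | p.1 ≤ x.1 ∧ x.1 ≤ q.1 ∧ p.2 ≤ x.2 ∧ x.2 ≤ q.2} : Finset (ℝ × ℝ)).card →
      ∃ y ∈ A', p.1 ≤ y.1 ∧ y.1 ≤ q.1 ∧ p.2 ≤ y.2 ∧ y.2 ≤ q.2 := by
  classical
  refine ⟨2 * 864000 ^ 2, fun A => ?_⟩
  obtain ⟨Z, h1, h2⟩ := Pool.Agent.P.MP_b9c629_co.weak_net A (2 * 864000 ^ 2) (by norm_num)
  refine ⟨Z, ?_, fun p q h => ?_⟩
  · rw [Nat.le_div_iff_mul_le (by norm_num)]
    have h3 : (Z.card : ℝ) * 2 ≤ A.card := by
      have e : (864000 : ℝ) ^ 2 * (A.card / ((2 * 864000 ^ 2 : ℕ) : ℝ)) = A.card / 2 := by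
        push_cast
        ring
      rw [e] at h1
      linarith
    exact_mod_cast h3
  · refine h2 p q (h.trans (le_of_eq ?_))
    congr 1

end Pool.Agent.S11053
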