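import Pool.Statements.S11222
import Pool.Agent.P.MP_c11f96_co.Basic

set_option autoImplicit false
open Pool Pool.MP_c11f96_co

namespace Pool.Agent.S11222

/-- The negation of the preceding statement: For k≥4 with reg(k) the largest order of a regular tournament with no transitive k-subtournament, and any ε>0: every large oriented graph on n vertices, k∣n, semidegree ≥ (1/2−(k−1)/(2k·reg(k))+ε)n, splits into disjoint transitive k-tournaments. -/
theorem result :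
    ¬ (∀ k : ℕ, 4 ≤ k → ∀ r : ℕ,
      IsGreatest {m : ℕ | ∃ T : Fin m → Fin m → Prop,
          (∀ x, ¬ T x x) ∧
          (∀ x y, x ≠ y → (T x y ↔ ¬ T y x)) ∧
          (∀ v, Set.ncard {w | T v w} = Set.ncard {w | T w v}) ∧
          ¬ ∃ f : Fin k → Fin m, Function.Injective f ∧
              ∀ i j : Fin k, i < j → T (f i) (f j)} r →
      ∀ ε : ℝ, 0 < ε → ∃ n0 : ℕ, ∀ n : ℕ, n0 ≤ n → k ∣ n →
        ∀ G : Fin n → Fin n → Prop,
          (∀ x, ¬ G x x) →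
          (∀ x y, G x y → ¬ G y x) →
          (∀ v, ((1:ℝ)/2 - ((k:ℝ) - 1) / (2 * (k:ℝ) * (r:ℝ)) + ε) * (n:ℝ)
                  ≤ (Set.ncard {w | G v w} : ℝ) ∧
                ((1:ℝ)/2 - ((k:ℝ) - 1) / (2 * (k:ℝ) * (r:ℝ)) + ε) * (n:ℝ)
                  ≤ (Set.ncard {w | G w v} : ℝ)) →
          ∃ f : Fin (n / k) → Fin k → Fin n,
            Function.Bijective (fun p : Fin (n / k) × Fin k => f p.1 p.2) ∧
            ∀ t : Fin (n / k), ∀ i j : Fin k, i < j → G (f t i) (f t j)) := by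
  intro h
  obtain ⟨n0, hn0⟩ := h 4 le_rfl 7 Pool.Agent.P.MP_c11f96_co.reg_four (1 / 2632) (by norm_num)
  have hdvd : 4 ∣ 47 * (4 * (n0 + 1)) := ⟨47 * (n0 + 1), by ring⟩
  refine Pool.Agent.P.MP_c11f96_co.no_tiling (4 * (n0 + 1)) (by omega) hdvd ?_
  refine hn0 (47 * (4 * (n0 + 1))) (by omega) hdvd
    (fun x y => Pool.Agent.P.MP_c11f96_co.R (Pool.Agent.P.MP_c11f96_co.pr _ x)
      (Pool.Agent.P.MP_c11f96_co.pr _ y) = true) ?_ ?_ ?_
  · intro x
    simp [Pool.Agent.P.MP_c11f96_co.R_irrefl]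
  · intro x y hxy
    simp [Pool.Agent.P.MP_c11f96_co.R_asymm _ _ hxy]
  · intro v
    have h1 := Pool.Agent.P.MP_c11f96_co.ncard_pr (4 * (n0 + 1))
      (fun s => Pool.Agent.P.MP_c11f96_co.R (Pool.Agent.P.MP_c11f96_co.pr _ v) s = true)
    have h2 := Pool.Agent.P.MP_c11f96_co.ncard_pr (4 * (n0 + 1))
      (fun s => Pool.Agent.P.MP_c11f96_co.R s (Pool.Agent.P.MP_c11f96_co.pr _ v) = true)
    have h3 := Pool.Agent.P.MP_c11f96_co.R_out (Pool.Agent.P.MP_c11f96_co.pr _ v)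
    have h4 := Pool.Agent.P.MP_c11f96_co.R_in (Pool.Agent.P.MP_c11f96_co.pr _ v)
    have h5 := Nat.mul_le_mul_right (4 * (n0 + 1)) h3
    have h6 := Nat.mul_le_mul_right (4 * (n0 + 1)) h4
    rw [← h1] at h5
    rw [← h2] at h6
    have h7 : ((1:ℝ)/2 - (((4:ℕ):ℝ) - 1) / (2 * ((4:ℕ):ℝ) * ((7:ℕ):ℝ)) + 1 / 2632) *
        ((47 * (4 * (n0 + 1)) : ℕ) : ℝ) = ((21 * (4 * (n0 + 1)) : ℕ) : ℝ) := by
      push_cast
      ring
    rw [h7]
    exact ⟨by exact_mod_cast h5, by exact_mod_cast h6⟩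

end Pool.Agent.S11222
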