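import Pool.Statements.S11869
import Pool.Agent.P.MP_dd077d_co.All

set_option autoImplicit false
open Pool Pool.MP_dd077d_co

namespace Pool.Agent.S11869

/-- Unit disks centred at the triangular lattice with spacing 2, minus the disk at 0: moving finitely many disks to new positions so that no two overlap always gives a configuration congruent to the original. -/
theorem result :
    ∀ P : Set ℂ,
      P = {z : ℂ | ∃ a b : ℤ,
              z = 2 * ((a : ℂ) + (b : ℂ) * ((1 / 2 : ℂ) + ((Real.sqrt 3 / 2 : ℝ) : ℂ) * Complex.I))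
              ∧ z ≠ 0} →
      ∀ g : ℂ → ℂ,
        Set.Finite {z : ℂ | z ∈ P ∧ g z ≠ z} →
        (∀ z ∈ P, ∀ w ∈ P, z ≠ w → 2 ≤ dist (g z) (g w)) →
        ∃ e : ℂ ≃ᵢ ℂ, e '' P = g '' P := by
  exact Pool.Agent.P.MP_dd077d_co.target

end Pool.Agent.S11869
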