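import Pool.Statements.S12006
import Pool.Agent.P.MP_e1e3b8_co.Curve

set_option autoImplicit false
open Pool Pool.MP_e1e3b8_co

namespace Pool.Agent.S12006

open Pool.Agent.P.MP_e1e3b8_co in
/-- Counterexample: the decagon with vertices (12,0),(5,1),(4,0),(0,7),(-8,0),(-12,0),(-5,-2),
(-4,0),(0,-10),(8,0). The hexagon forced by the parity count is the collinear one with vertices
at 12, 4, -8, -12, -4, 8 on the horizontal axis; a verified case tree shows there is no other. -/
theorem result :
    ¬ (∀ f : Circle → ℂ, Continuous f → Function.Injective f →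
      ∃ A : AffineEquiv ℝ ℂ ℂ, ∀ k : Fin 6,
        A (Complex.exp (2 * (Real.pi : ℂ) * Complex.I * ((k : ℕ) : ℂ) / 6)) ∈ Set.range f) := by
  intro H
  obtain ⟨A, hA⟩ := H curve curve_cont curve_inj
  set o : ℂ := Complex.exp (2 * (Real.pi : ℂ) * Complex.I / 6) with ho
  have hk : ∀ k : ℕ, Complex.exp (2 * (Real.pi : ℂ) * Complex.I * (k : ℂ) / 6) = o ^ k := by
    intro k
    rw [ho, ← Complex.exp_nat_mul]
    congr 1
    ring
  have ho2 : o = 1 / 2 + ((Real.sqrt 3 / 2 : ℝ) : ℂ) * Complex.I := by
    have : 2 * (Real.pi : ℂ) * Complex.I / 6 = ((Real.pi / 3 : ℝ) : ℂ) * Complex.I := by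
      push_cast; ring
    rw [ho, this, Complex.exp_mul_I, ← Complex.ofReal_cos, ← Complex.ofReal_sin,
      Real.cos_pi_div_three, Real.sin_pi_div_three]
    push_cast; ring
  have h3 : ((Real.sqrt 3 : ℝ) : ℂ) ^ 2 = 3 := by
    rw [← Complex.ofReal_pow, Real.sq_sqrt (by norm_num)]; norm_num
  have hq : o ^ 2 = o - 1 := by
    rw [ho2]; push_cast
    linear_combination (Complex.I ^ 2 / 4) * h3 + (3 / 4) * Complex.I_sq
  have him : o.im = Real.sqrt 3 / 2 := by rw [ho2]; simp
  have hs : Real.sqrt 3 ≠ 0 := by positivity
  have hJ : ∀ k : Fin 6, OnJ (A (o ^ (k : ℕ))).re (A (o ^ (k : ℕ))).im := by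
    intro k
    obtain ⟨z, hz⟩ := hA k
    rw [hk] at hz
    rw [← hz]
    exact curve_onJ z
  have hAz : ∀ z : ℂ, A z = A.linear z + A 0 := by
    intro z
    have := A.map_vadd 0 z
    simpa using this
  have hlin : ∀ s t : ℝ, A.linear (s • o + t • (1 - o)) =
      s • A.linear o + t • A.linear (1 - o) := by
    intro s t
    rw [map_add, map_smul, map_smul]
  have hpt : ∀ (k : Fin 6) (s t : ℝ), o ^ (k : ℕ) = s • o + t • (1 - o) →
      OnJ ((A 0).re + s * (A.linear o).re + t * (A.linear (1 - o)).re)
        ((A 0).im + s * (A.linear o).im + t * (A.linear (1 - o)).im) := by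
    intro k s t h
    have := hJ k
    rw [h, hAz, hlin] at this
    simp only [Complex.add_re, Complex.add_im, Complex.smul_re, Complex.smul_im,
      smul_eq_mul] at this
    convert! this using 1 <;> ring
  have hind : ∀ s t : ℝ, s • A.linear o + t • A.linear (1 - o) = 0 → s = 0 ∧ t = 0 := by
    intro s t h
    rw [← hlin, LinearEquiv.map_eq_zero_iff] at h
    have h1 := congrArg Complex.im h
    simp only [Complex.add_im, Complex.smul_im, Complex.sub_im, Complex.one_im, him,
      smul_eq_mul, Complex.zero_im] at h1
    have h2 : (s - t) * Real.sqrt 3 = 0 := by linarith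
    have h4 : s = t := by
      rcases mul_eq_zero.1 h2 with g | g
      · linarith
      · exact absurd g hs
    subst h4
    have h5 := congrArg Complex.re h
    simp only [Complex.add_re, Complex.smul_re, Complex.sub_re, Complex.one_re,
      smul_eq_mul, Complex.zero_re] at h5
    have : s = 0 := by linarith
    exact ⟨this, this⟩
  refine Hex.false (b := (A 0).re) (c1 := (A.linear o).re) (c2 := (A.linear (1 - o)).re)
    (e := (A 0).im) (d1 := (A.linear o).im) (d2 := (A.linear (1 - o)).im)
    ⟨?_, ?_, ?_, ?_, ?_, ?_, ?_⟩
  · have := hpt 0 1 1 (by simp)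
    convert! this using 1 <;> ring
  · have := hpt 1 1 0 (by simp)
    convert! this using 1 <;> ring
  · have := hpt 5 0 1 (by
      show o ^ 5 = _
      simp only [zero_smul, one_smul]
      linear_combination (o ^ 3 + o ^ 2 - 1) * hq)
    convert! this using 1 <;> ring
  · have := hpt 2 0 (-1) (by
      show o ^ 2 = _
      simp only [zero_smul, neg_smul, one_smul]
      linear_combination hq)
    convert! this using 1 <;> ring
  · have := hpt 4 (-1) 0 (by
      show o ^ 4 = _
      simp only [zero_smul, neg_smul, one_smul]
      linear_combination (o ^ 2 + o) * hq)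
    convert! this using 1 <;> ring
  · have := hpt 3 (-1) (-1) (by
      show o ^ 3 = _
      simp only [neg_smul, one_smul]
      linear_combination (o + 1) * hq)
    convert! this using 1 <;> ring
  · intro hd
    have e1 := hind (A.linear (1 - o)).im (-(A.linear o).im) (by
      apply Complex.ext
      · simp only [Complex.add_re, Complex.smul_re, smul_eq_mul, Complex.zero_re]; linarith
      · simp only [Complex.add_im, Complex.smul_im, smul_eq_mul, Complex.zero_im]; ring)
    have e2 := hind (A.linear (1 - o)).re (-(A.linear o).re) (by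
      apply Complex.ext
      · simp only [Complex.add_re, Complex.smul_re, smul_eq_mul, Complex.zero_re]; ring
      · simp only [Complex.add_im, Complex.smul_im, smul_eq_mul, Complex.zero_im]; linarith)
    have e3 := hind 1 0 (by
      apply Complex.ext
      · simp only [Complex.add_re, Complex.smul_re, smul_eq_mul, Complex.zero_re]
        linarith [e2.2]
      · simp only [Complex.add_im, Complex.smul_im, smul_eq_mul, Complex.zero_im]
        linarith [e1.2])
    exact one_ne_zero e3.1

end Pool.Agent.S12006
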