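import Pool.Statements.S12134
import Pool.Agent.P.MP_e75014_co.Greedy

set_option autoImplicit false
open Pool Pool.MP_e75014_co

namespace Pool.Agent.S12134

/-- The negation of the preceding statement: For every finite graph and every k, if Alice (moving first) wins the proper coloring game with k colors, then she also wins the greedy coloring game with k colors, where each vertex gets its least free color and must stay below k; equivalently, game Grundy number at most game chromatic number. -/
theorem result :
    ¬ (∀ (V : Type) [Fintype V] [DecidableEq V] (G : SimpleGraph V) (k : ℕ),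
    (∃ W : Bool → (V → Option ℕ) → Prop, W true (fun _ => none) ∧
      ∀ (t : Bool) (c : V → Option ℕ), W t c →
        (∀ v, c v ≠ none) ∨
        (t = true ∧ ∃ (v : V) (a : ℕ), c v = none ∧ a < k ∧
            (∀ w, G.Adj v w → c w ≠ some a) ∧
            W false (Function.update c v (some a))) ∨
        (t = false ∧
            (∃ (v : V) (a : ℕ), c v = none ∧ a < k ∧ (∀ w, G.Adj v w → c w ≠ some a)) ∧
            ∀ (v : V) (a : ℕ), c v = none → a < k → (∀ w, G.Adj v w → c w ≠ some a) →
              W true (Function.update c v (some a)))) →
    (∃ W : Bool → (V → Option ℕ) → Prop, W true (fun _ => none) ∧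
      ∀ (t : Bool) (c : V → Option ℕ), W t c →
        (∀ v, c v ≠ none) ∨
        (t = true ∧ ∃ (v : V) (a : ℕ), c v = none ∧ a < k ∧
            (∀ w, G.Adj v w → c w ≠ some a) ∧
            (∀ b, b < a → ∃ w, G.Adj v w ∧ c w = some b) ∧
            W false (Function.update c v (some a))) ∨
        (t = false ∧
            ∀ (v : V) (a : ℕ), c v = none → (∀ w, G.Adj v w → c w ≠ some a) →
              (∀ b, b < a → ∃ w, G.Adj v w ∧ c w = some b) →
              a < k ∧ W true (Function.update c v (some a))))) := by
  intro h
  exact Pool.Agent.P.MP_e75014_co.bob_greedy (s := 8) (k := 7) (by norm_num)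
    (h (Fin 8 × Fin 8) (Pool.Agent.P.MP_e75014_co.starCompl 8) 7
      (Pool.Agent.P.MP_e75014_co.alice_normal (by norm_num)))

end Pool.Agent.S12134
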