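import Pool.Statements.S12295
import Pool.Agent.P.MP_ef1b96_co.Main

set_option autoImplicit false
open Pool Pool.MP_ef1b96_co

namespace Pool.Agent.S12295

/-- There is N such that for every n ≥ N and every r with n/3 < r < n, some pair of orthogonal r×n latin rectangles on n symbols cannot be extended by one new row each to an orthogonal pair of (r+1)×n latin rectangles. -/
theorem result : ∃ N : ℕ, ∀ n : ℕ, N ≤ n → ∀ r : ℕ, n < 3 * r → r < n →
    ∃ A B : Fin r → Fin n → Fin n,
      (∀ i, Function.Injective (A i)) ∧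
      (∀ j, Function.Injective (fun i => A i j)) ∧
      (∀ i, Function.Injective (B i)) ∧
      (∀ j, Function.Injective (fun i => B i j)) ∧
      Function.Injective (fun p : Fin r × Fin n => (A p.1 p.2, B p.1 p.2)) ∧
      ¬ ∃ a b : Fin n → Fin n,
          Function.Injective a ∧ Function.Injective b ∧
          (∀ i j, a j ≠ A i j ∧ b j ≠ B i j) ∧
          (∀ i j j', (a j, b j) ≠ (A i j', B i j')) := by
  obtain ⟨N, hN⟩ := Pool.Agent.P.MP_ef1b96_co.has_all
  exact ⟨N, fun n hn r h1 h2 => Pool.Agent.P.MP_ef1b96_co.arrays_of_has (hN n hn r h1 h2)⟩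

end Pool.Agent.S12295
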