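import Pool.Statements.S12693
import Pool.Agent.P.MP_06bfdf_gt.Tpp
import Pool.Agent.P.MP_06bfdf_gt.Count

set_option autoImplicit false
open scoped Manifold ContDiff
open Pool Pool.MP_06bfdf_gt

namespace Pool.Agent.S12693

/-- There is a closed connected smooth surface M, with 2^k homomorphisms from its fundamental group to Z/2 for some odd k ≥ 3 (so χ = 2−k is odd and ≤ −1), and a smooth embedding of M into R^4 whose preimage of every closed half-space is connected. -/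
theorem result :
  ∃ (M : Type) (_ : TopologicalSpace M) (_ : ChartedSpace (EuclideanSpace ℝ (Fin 2)) M)
    (_ : IsManifold (𝓡 2) ∞ M) (_ : CompactSpace M) (_ : ConnectedSpace M) (_ : T2Space M)
    (f : M → EuclideanSpace ℝ (Fin 4)),
    ContMDiff (𝓡 2) 𝓘(ℝ, EuclideanSpace ℝ (Fin 4)) ∞ f ∧
    Topology.IsEmbedding f ∧
    (∀ x : M, Function.Injective (mfderiv (𝓡 2) 𝓘(ℝ, EuclideanSpace ℝ (Fin 4)) f x)) ∧
    (∃ (x : M) (k : ℕ), Odd k ∧ 3 ≤ k ∧
      Nat.card (FundamentalGroup M x →* Multiplicative (ZMod 2)) = 2 ^ k) ∧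
    ∀ (u : EuclideanSpace ℝ (Fin 4)) (c : ℝ),
      IsPreconnected (f ⁻¹' {y : EuclideanSpace ℝ (Fin 4) | inner ℝ u y ≤ c}) := by
  obtain ⟨P⟩ := Pool.Agent.P.MP_06bfdf_gt.exists_par
  have h0 : P.J (1, 0, 0) ∈ P.M := P.J_mem (by norm_num) (by norm_num)
  obtain ⟨inst, hcard⟩ := P.count ⟨_, h0⟩
  exact Pool.Agent.P.MP_06bfdf_gt.package P.atl P.isCompact_M ⟨_, h0⟩ P.atl_cover
    (ContinuousLinearMap.fst ℝ _ _) P.injOn_fst P.imm inferInstance hcard P.tpp

end Pool.Agent.S12693
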