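import Pool.Statements.S13126
import Pool.Agent.P.MP_4a4b50_gt.CSob
import Pool.Agent.P.MP_4a4b50_gt.CGlue
import Pool.Agent.P.MP_4a4b50_gt.CNu
import Pool.Agent.P.MP_4a4b50_gt.CSub
import Pool.Agent.P.MP_4a4b50_gt.CBody

set_option autoImplicit false
open Pool Pool.MP_4a4b50_gt

namespace Pool.Agent.S13126

/-- The negation of the preceding statement: For n ≥ 3, take two convex bodies in ℝⁿ whose support functions are C^{r(n)} away from 0 with positive curvature-radii products. If their width functions agree and their curvature ratios at u and −u agree for every unit u, then one body is a translate of the other. -/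
theorem result :
    ¬ (∀ n : ℕ, 3 ≤ n →
    ∀ N : ℕ, N = (if n ≤ 7 then (if Even n then 8 else 9) else (n - 1) / 2 + 5) →
    ∀ H K : Set (EuclideanSpace ℝ (Fin n)),
    IsCompact H → Convex ℝ H → (interior H).Nonempty →
    IsCompact K → Convex ℝ K → (interior K).Nonempty →
    ∀ hH hK : EuclideanSpace ℝ (Fin n) → ℝ,
    (∀ x, hH x = sSup ((fun y => inner ℝ y x) '' H)) →
    (∀ x, hK x = sSup ((fun y => inner ℝ y x) '' K)) →
    ∀ RH RK : EuclideanSpace ℝ (Fin n) → ℝ,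
    (∀ u, RH u = (Matrix.of (fun i j : Fin n =>
        fderiv ℝ (fderiv ℝ hH) u (EuclideanSpace.single i 1) (EuclideanSpace.single j 1)
        + inner ℝ u (EuclideanSpace.single i (1 : ℝ)) * inner ℝ u (EuclideanSpace.single j (1 : ℝ)))).det) →
    (∀ u, RK u = (Matrix.of (fun i j : Fin n =>
        fderiv ℝ (fderiv ℝ hK) u (EuclideanSpace.single i 1) (EuclideanSpace.single j 1)
        + inner ℝ u (EuclideanSpace.single i (1 : ℝ)) * inner ℝ u (EuclideanSpace.single j (1 : ℝ)))).det) →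
    ContDiffOn ℝ (N : WithTop ℕ∞) hH {0}ᶜ →
    ContDiffOn ℝ (N : WithTop ℕ∞) hK {0}ᶜ →
    (∀ u : EuclideanSpace ℝ (Fin n), ‖u‖ = 1 → 0 < RH u) →
    (∀ u : EuclideanSpace ℝ (Fin n), ‖u‖ = 1 → 0 < RK u) →
    (∀ u : EuclideanSpace ℝ (Fin n), ‖u‖ = 1 → hH u + hH (-u) = hK u + hK (-u)) →
    (∀ u : EuclideanSpace ℝ (Fin n), ‖u‖ = 1 → RH (-u) * RK u = RK (-u) * RH u) →
    ∃ v : EuclideanSpace ℝ (Fin n), H = (fun x => x + v) '' K) := by
  obtain ⟨ν, hν⟩ := Pool.Agent.P.MP_4a4b50_gt.CE.exists_nu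
  obtain ⟨f, hf⟩ := Pool.Agent.P.MP_4a4b50_gt.CE.exists_geom hν
  obtain ⟨S⟩ := Pool.Agent.P.MP_4a4b50_gt.exists_sob 10 9
  obtain ⟨h, d, hs⟩ := Pool.Agent.P.MP_4a4b50_gt.CE.exists_sol (by norm_num) S hf
  exact Pool.Agent.P.MP_4a4b50_gt.CE.not_statement hf.nofix hs

end Pool.Agent.S13126
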