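import Pool.Statements.S13423
import Pool.Agent.P.MP_7b8a73_gt.Main

set_option autoImplicit false
open Pool Pool.MP_7b8a73_gt

namespace Pool.Agent.S13423

/-- Every Hausdorff space locally homeomorphic to R^n that is hereditarily normal and quasi-developable (a sequence of open families whose stars at each point form a neighborhood base) is metrizable. -/
theorem result :
    ∀ (X : Type) [TopologicalSpace X] [T2Space X] (n : ℕ)
      [ChartedSpace (EuclideanSpace ℝ (Fin n)) X],
      CompletelyNormalSpace X →
      (∃ G : ℕ → Set (Set X),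
        (∀ k, ∀ s ∈ G k, IsOpen s) ∧
        ∀ x : X, ∀ U : Set X, IsOpen U → x ∈ U →
          ∃ k, x ∈ ⋃₀ {s ∈ G k | x ∈ s} ∧ ⋃₀ {s ∈ G k | x ∈ s} ⊆ U) →
      TopologicalSpace.MetrizableSpace X := by
  intro X _ _ n _ hcn hG
  obtain ⟨G, hGo, hG⟩ := hG
  have := ChartedSpace.locallyCompactSpace (EuclideanSpace ℝ (Fin n)) X
  have := ChartedSpace.locallyConnectedSpace (EuclideanSpace ℝ (Fin n)) X
  let N : X → Set X := fun x => (chartAt (EuclideanSpace ℝ (Fin n)) x).source
  have hNo : ∀ x, IsOpen (N x) := fun x => (chartAt _ x).open_source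
  have hNx : ∀ x, x ∈ N x := fun x => mem_chart_source _ x
  have hNl : ∀ x, ∀ s ⊆ N x, IsLindelof s := by
    intro x s hs
    let e := chartAt (EuclideanSpace ℝ (Fin n)) x
    have h1 : s = e.symm '' (e '' s) := (e.toPartialEquiv.symm_image_image_of_subset_source hs).symm
    rw [h1]
    refine (HereditarilyLindelofSpace.isLindelof _).image_of_continuousOn
      (e.continuousOn_symm.mono ?_)
    rintro _ ⟨z, hz, rfl⟩
    exact e.map_source (hs hz)
  obtain ⟨H, hHo, hHN, hH⟩ := Pool.Agent.P.MP_7b8a73_gt.exists_refinement N hNo hNx G hGo hG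
  refine Pool.Agent.P.MP_7b8a73_gt.metrizable_of_components fun x => ?_
  obtain ⟨U, hU, hxU, hUl⟩ :=
    Pool.Agent.P.MP_7b8a73_gt.exists_clopen N hNo hNx hNl H hHo hHN hH x
  obtain ⟨t, htc, ht⟩ := hUl.elim_countable_subcover N hNo
    (fun z _ => Set.mem_iUnion.2 ⟨z, hNx z⟩)
  have hsub : connectedComponent x ⊆ U := hU.connectedComponent_subset hxU
  have : Countable t := htc.to_subtype
  have : ∀ a : t, SecondCountableTopology
      ((Subtype.val : connectedComponent x → X) ⁻¹' N a.1) := by
    intro a
    have : SecondCountableTopology (N a.1) :=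
      (chartAt (EuclideanSpace ℝ (Fin n)) a.1).secondCountableTopology_source
    have hemb : Topology.IsEmbedding
        (fun z : ((Subtype.val : connectedComponent x → X) ⁻¹' N a.1) => (⟨z.1.1, z.2⟩ : N a.1)) :=
      (Topology.IsEmbedding.subtypeVal.comp Topology.IsEmbedding.subtypeVal).codRestrict _ _
    exact hemb.secondCountableTopology
  have : SecondCountableTopology (connectedComponent x) :=
    TopologicalSpace.secondCountableTopology_of_countable_cover
      (U := fun a : t => (Subtype.val : connectedComponent x → X) ⁻¹' N a.1)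
      (fun a => (hNo _).preimage continuous_subtype_val)
      (Set.eq_univ_of_forall fun z => by
        obtain ⟨a, ha, hz⟩ := Set.mem_iUnion₂.1 (ht (hsub z.2))
        exact Set.mem_iUnion.2 ⟨⟨a, ha⟩, hz⟩)
  infer_instance

end Pool.Agent.S13423
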