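import Pool.Statements.S13806
import Pool.Agent.P.MP_b7645d_gt.Final

set_option autoImplicit false
open Pool Pool.MP_b7645d_gt

namespace Pool.Agent.S13806

/-- The negation of the preceding statement: For every λ in [0,1], the least relative (De Giorgi) perimeter inside the open unit cube (0,1)^d of a measurable subset of volume λ takes the same value for all sufficiently large dimensions d. -/
theorem result :
    ¬ (∀ I : ℕ → ℝ → ENNReal,
      (∀ (d : ℕ) (t : ℝ), I d t =
        ⨅ (E : Set (Fin d → ℝ)) (_ : MeasurableSet E)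
          (_ : E ⊆ {x : Fin d → ℝ | ∀ i, x i ∈ Set.Ioo (0:ℝ) 1})
          (_ : MeasureTheory.volume E = ENNReal.ofReal t),
          ⨆ (φ : (Fin d → ℝ) → (Fin d → ℝ)) (_ : ContDiff ℝ 1 φ)
            (_ : HasCompactSupport φ)
            (_ : tsupport φ ⊆ {x : Fin d → ℝ | ∀ i, x i ∈ Set.Ioo (0:ℝ) 1})
            (_ : ∀ x, ∑ i, (φ x i) ^ 2 ≤ 1),
            ENNReal.ofReal (∫ x in E, ∑ i, fderiv ℝ φ x (Pi.single i 1) i)) →
      ∀ t ∈ Set.Icc (0:ℝ) 1, ∃ N : ℕ, ∀ d ≥ N, I d t = I N t) := by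
  intro h
  exact Pool.Agent.P.MP_b7645d_gt.not_eventually_const
    (h Pool.Agent.P.MP_b7645d_gt.Prof fun _ _ => rfl)

end Pool.Agent.S13806
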