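import Pool.Statements.S14403
import Pool.Agent.P.MP_14681b_lc.Machine

set_option autoImplicit false
open Pool Pool.MP_14681b_lc

namespace Pool.Agent.S14403

/-- For any optimal plain machine and any two sequences that escape every Martin-Löf test relative to the halting problem (given as Sigma-2 tests), some constant d makes infinitely many n have both length-n prefixes of plain complexity at least n minus d. -/
theorem result :
  ∀ U : List Bool →. List Bool,
    Partrec U →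
    (∀ M : List Bool →. List Bool, Partrec M →
      ∃ c : ℕ, ∀ p σ : List Bool, σ ∈ M p →
        ∃ q : List Bool, σ ∈ U q ∧ q.length ≤ p.length + c) →
    ∀ X Y : ℕ → Bool,
      (¬ ∃ R : ℕ × List Bool × ℕ × ℕ → Bool, Computable R ∧
          (∀ k : ℕ, ∀ S : Finset (List Bool),
            (∀ σ ∈ S, ∃ a : ℕ, ∀ b : ℕ, R (k, σ, a, b) = true) →
            ∑ σ ∈ S, ((1:ℝ)/2) ^ σ.length ≤ ((1:ℝ)/2) ^ k) ∧
          ∀ k : ℕ, ∃ n : ℕ, ∃ a : ℕ, ∀ b : ℕ,
            R (k, List.ofFn (fun i : Fin n => X i), a, b) = true) →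
      (¬ ∃ R : ℕ × List Bool × ℕ × ℕ → Bool, Computable R ∧
          (∀ k : ℕ, ∀ S : Finset (List Bool),
            (∀ σ ∈ S, ∃ a : ℕ, ∀ b : ℕ, R (k, σ, a, b) = true) →
            ∑ σ ∈ S, ((1:ℝ)/2) ^ σ.length ≤ ((1:ℝ)/2) ^ k) ∧
          ∀ k : ℕ, ∃ n : ℕ, ∃ a : ℕ, ∀ b : ℕ,
            R (k, List.ofFn (fun i : Fin n => Y i), a, b) = true) →
      ∃ d : ℕ, ∃ᶠ n in Filter.atTop,
        (∀ q : List Bool, List.ofFn (fun i : Fin n => X i) ∈ U q → n ≤ q.length + d) ∧
        (∀ q : List Bool, List.ofFn (fun i : Fin n => Y i) ∈ U q → n ≤ q.length + d) := by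
  intro U hU _ X Y hX hY
  by_contra hcon
  have h : ∀ d : ℕ, ∀ᶠ n in Filter.atTop,
      (∃ q, Pool.Agent.P.MP_14681b_lc.pre X n ∈ U q ∧ q.length + d < n) ∨
      (∃ q, Pool.Agent.P.MP_14681b_lc.pre Y n ∈ U q ∧ q.length + d < n) := by
    intro d
    have h1 := Filter.not_frequently.1 (fun hf => hcon ⟨d, hf⟩)
    filter_upwards [h1] with n hn
    by_contra h2
    push Not at h2
    exact hn ⟨fun q hq => h2.1 q hq, fun q hq => h2.2 q hq⟩
  obtain ⟨R, hR, hw, h1 | h1⟩ := Pool.Agent.P.MP_14681b_lc.exists_test hU X Y h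
  · exact hX ⟨R, hR, hw, h1⟩
  · exact hY ⟨R, hR, hw, h1⟩

end Pool.Agent.S14403
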