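import Pool.Statements.S15248
import Pool.Agent.P.MP_b28ae3_lc.Graphs

set_option autoImplicit false
open Pool Pool.MP_b28ae3_lc

namespace Pool.Agent.S15248

/-- The negation of the preceding statement: For Borel graphs G, G' on standard Borel spaces with one of them Borel 4-colourable: whenever the tensor product G×G' has a Borel n-colouring, G or G' itself has a Borel n-colouring (so the product's Borel chromatic number equals the minimum). -/
theorem result :
    ¬ (∀ (X X' : Type) [MeasurableSpace X] [StandardBorelSpace X]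
      [MeasurableSpace X'] [StandardBorelSpace X']
      (G : SimpleGraph X) (G' : SimpleGraph X'),
      MeasurableSet {p : X × X | G.Adj p.1 p.2} →
      MeasurableSet {p : X' × X' | G'.Adj p.1 p.2} →
      ((∃ c : X → ℕ, Measurable c ∧ (∀ x, c x < 4) ∧
          ∀ x y, G.Adj x y → c x ≠ c y) ∨
       (∃ c : X' → ℕ, Measurable c ∧ (∀ x, c x < 4) ∧
          ∀ x y, G'.Adj x y → c x ≠ c y)) →
      ∀ n : ℕ,
        (∃ c : X × X' → ℕ, Measurable c ∧ (∀ p, c p < n) ∧
          ∀ x y : X, ∀ x' y' : X', G.Adj x y → G'.Adj x' y' → c (x, x') ≠ c (y, y')) →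
        ((∃ c : X → ℕ, Measurable c ∧ (∀ x, c x < n) ∧
            ∀ x y, G.Adj x y → c x ≠ c y) ∨
         (∃ c : X' → ℕ, Measurable c ∧ (∀ x, c x < n) ∧
            ∀ x y, G'.Adj x y → c x ≠ c y))) := by
  intro h
  rcases h (ℕ → ℕ) ((ℕ → ℕ) × ℕ) Pool.Agent.P.MP_b28ae3_lc.GS Pool.Agent.P.MP_b28ae3_lc.GT
      Pool.Agent.P.MP_b28ae3_lc.meas_GS Pool.Agent.P.MP_b28ae3_lc.meas_GT
      (Or.inr Pool.Agent.P.MP_b28ae3_lc.GT_four) 3
      ⟨Pool.Agent.P.MP_b28ae3_lc.cc, Pool.Agent.P.MP_b28ae3_lc.meas_cc,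
        Pool.Agent.P.MP_b28ae3_lc.cc_lt, Pool.Agent.P.MP_b28ae3_lc.cc_proper⟩ with h1 | h1
  · exact Pool.Agent.P.MP_b28ae3_lc.GS_not_three h1
  · exact Pool.Agent.P.MP_b28ae3_lc.GT_not_three h1

end Pool.Agent.S15248
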