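import Pool.Statements.S15471
import Pool.Agent.P.MP_dca9d4_lc.Gadget

set_option autoImplicit false
open Pool Pool.MP_dca9d4_lc

namespace Pool.Agent.S15471

/-- Over a binary alphabet, in the free monoid or in the free semigroup setting, there is c>1 such that for infinitely many n some independent system of word equations in n unknowns has at least c^n equations. -/
theorem result :
    (∃ c : ℝ, 1 < c ∧ ∀ N : ℕ, ∃ n : ℕ, N ≤ n ∧
      ∃ S : Finset (List (Fin n) × List (Fin n)),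
        c ^ n ≤ (S.card : ℝ) ∧
        ∀ T : Finset (List (Fin n) × List (Fin n)), T ⊂ S →
          ∃ f : Fin n → List (Fin 2),
            (∀ e ∈ T, e.1.flatMap f = e.2.flatMap f) ∧
            ∃ e ∈ S, e.1.flatMap f ≠ e.2.flatMap f) ∨
    (∃ c : ℝ, 1 < c ∧ ∀ N : ℕ, ∃ n : ℕ, N ≤ n ∧
      ∃ S : Finset (List (Fin n) × List (Fin n)),
        (∀ e ∈ S, e.1 ≠ [] ∧ e.2 ≠ []) ∧
        c ^ n ≤ (S.card : ℝ) ∧
        ∀ T : Finset (List (Fin n) × List (Fin n)), T ⊂ S →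
          ∃ f : Fin n → List (Fin 2), (∀ i, f i ≠ []) ∧
            (∀ e ∈ T, e.1.flatMap f = e.2.flatMap f) ∧
            ∃ e ∈ S, e.1.flatMap f ≠ e.2.flatMap f) := by
  left
  refine ⟨11 / 10, by norm_num, fun N => ⟨4 * (N + 1) + 2, by omega, ?_⟩⟩
  obtain ⟨S, hS, h⟩ := Pool.Agent.P.MP_dca9d4_lc.indep (N + 1)
  refine ⟨S, ?_, h⟩
  rw [hS]
  push_cast
  calc ((11 : ℝ) / 10) ^ (4 * (N + 1) + 2) ≤ ((11 : ℝ) / 10) ^ (6 * (N + 1)) :=
        pow_le_pow_right₀ (by norm_num) (by omega)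
    _ = (((11 : ℝ) / 10) ^ 6) ^ (N + 1) := by rw [pow_mul]
    _ ≤ 2 ^ (N + 1) := pow_le_pow_left₀ (by positivity) (by norm_num) _

end Pool.Agent.S15471
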