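import Pool.Statements.S15800
import Pool.Agent.P.MP_d0f69c_mp.XS.PAll0
import Pool.Agent.P.MP_d0f69c_mp.XS.PSch4
import Pool.Agent.P.MP_d0f69c_mp.XS.PCv5
import Pool.Agent.P.MP_d0f69c_mp.XS.RefZ

set_option autoImplicit false
open MeasureTheory
open Pool Pool.MP_d0f69c_mp

namespace Pool.Agent.S15800

/-- The negation of the preceding statement: For d ≥ 2 and almost every fair ±1 potential ω on ℤᵈ, every spectral measure of the operator −(discrete Laplacian) + ω on ℓ²(ℤᵈ), identified via its resolvent, is singular with respect to Lebesgue measure. -/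
theorem result :
    ¬ (∀ d : ℕ, 2 ≤ d →
    ∀ᵐ ω ∂(Measure.infinitePi
        (fun _ : Fin d → ℤ => (PMF.uniformOfFintype Bool).toMeasure)),
      ∀ H : lp (fun _ : Fin d → ℤ => ℂ) 2 →L[ℂ] lp (fun _ : Fin d → ℤ => ℂ) 2,
        (∀ (u : lp (fun _ : Fin d → ℤ => ℂ) 2) (j : Fin d → ℤ),
          (H u) j = -(∑ i : Fin d,
              ((u (j + (Pi.single i (1 : ℤ) : Fin d → ℤ)) - u j)
                + (u (j - (Pi.single i (1 : ℤ) : Fin d → ℤ)) - u j)))
            + (if ω j then (1 : ℂ) else -1) * u j) →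
        ∀ (ψ : lp (fun _ : Fin d → ℤ => ℂ) 2) (μ : Measure ℝ), IsFiniteMeasure μ →
          (∀ z : ℂ, z.im ≠ 0 →
            (∫ x, ((x : ℂ) - z)⁻¹ ∂μ) =
              inner ℂ ψ
                (Ring.inverse
                  (H - z • (1 : lp (fun _ : Fin d → ℤ => ℂ) 2 →L[ℂ] lp (fun _ : Fin d → ℤ => ℂ) 2))
                  ψ)) →
          μ ⟂ₘ volume) := by
  obtain ⟨d, hd, h⟩ := P.MP_d0f69c_mp.XS.t_B P.MP_d0f69c_mp.XS.all_main
    (P.MP_d0f69c_mp.XS.Pre.t_pre P.MP_d0f69c_mp.XS.Rf.t_pref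
      (P.MP_d0f69c_mp.XS.Pre.a_prun P.MP_d0f69c_mp.XS.Pre.t_pconv))
  exact P.MP_d0f69c_mp.XS.frozen_of hd h

end Pool.Agent.S15800
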