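import Pool.Statements.S16298
import Pool.Agent.P.MP_222ec5_nt.Ten

set_option autoImplicit false
open Pool Pool.MP_222ec5_nt

namespace Pool.Agent.S16298

/-- The negation of the preceding statement: For n≥3, among integer n-tuples with sum 0, gcd 1 and no vanishing proper subsum, ln max∣a_i∣ / ln rad(∏a_i) exceeds 2n−5+ε only finitely often but exceeds 2n−5−ε infinitely often, i.e. its limsup is 2n−5. -/
theorem result :
    ¬ (∀ n : ℕ, 3 ≤ n → ∀ ε : ℝ, 0 < ε →
      {a : Fin n → ℤ | Finset.gcd Finset.univ a = 1 ∧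
          (∀ S : Finset (Fin n), S.Nonempty → S ≠ Finset.univ → ∑ i ∈ S, a i ≠ 0) ∧
          (∑ i, a i = 0) ∧
          2 * (n : ℝ) - 5 + ε <
            Real.log (((Finset.univ.sup fun i => (a i).natAbs) : ℕ) : ℝ) /
              Real.log ((((∏ i, a i).natAbs.primeFactors.prod id) : ℕ) : ℝ)}.Finite ∧
      {a : Fin n → ℤ | Finset.gcd Finset.univ a = 1 ∧
          (∀ S : Finset (Fin n), S.Nonempty → S ≠ Finset.univ → ∑ i ∈ S, a i ≠ 0) ∧
          (∑ i, a i = 0) ∧
          2 * (n : ℝ) - 5 - ε <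
            Real.log (((Finset.univ.sup fun i => (a i).natAbs) : ℕ) : ℝ) /
              Real.log ((((∏ i, a i).natAbs.primeFactors.prod id) : ℕ) : ℝ)}.Infinite) := by
  intro h
  have h1 := (h 10 (by norm_num) (1 / 2) (by norm_num)).1
  exact Pool.Agent.P.MP_222ec5_nt.Ten.main _ (by norm_num) h1

end Pool.Agent.S16298
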