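import Pool.Statements.S19505
import Pool.Agent.P.MP_9957ef_pr.Tails
import Pool.Agent.P.MP_9957ef_pr.UtInc
import Pool.Agent.P.MP_9957ef_pr.Yt
import Pool.Agent.P.MP_9957ef_pr.Xi
import Pool.Agent.P.MP_9957ef_pr.Slab
import Pool.Agent.P.MP_9957ef_pr.Multi
import Pool.Agent.P.MP_9957ef_pr.Stat
import Pool.Agent.P.MP_9957ef_pr.Touch
import Pool.Agent.P.MP_9957ef_pr.Var
import Pool.Agent.P.MP_9957ef_pr.Point
import Pool.Agent.P.MP_9957ef_pr.Mt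
import Pool.Agent.P.MP_9957ef_pr.Final

set_option autoImplicit false
open MeasureTheory ProbabilityTheory Filter Topology
open Pool Pool.MP_9957ef_pr

namespace Pool.Agent.S19505

/-- For i.i.d. Exp(1) weights and every rho, compact K in the half-space upward pairs and eps>0, the probability that the rescaled half-space LPP with original vs independently resampled diagonal differ by more than eps somewhere finite on K tends to 0. -/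
theorem result :
    ∀ (Ω : Type) [MeasurableSpace Ω] (P : Measure Ω) [IsProbabilityMeasure P]
      (E : ℤ × ℤ → Ω → ℝ),
      (∀ z, Measurable (E z)) → iIndepFun E P →
      (∀ z, Measure.map (E z) P = expMeasure 1) →
      ∀ (G : (ℤ × ℤ → ℝ) → ℤ × ℤ → ℤ × ℤ → ℝ),
      (∀ W a b, G W a b = sSup {w : ℝ | ∃ (m : ℕ) (π : ℕ → ℤ × ℤ), π 0 = a ∧ π m = b ∧
          (∀ k < m, π (k + 1) = π k + (1, 0) ∨ π (k + 1) = π k + (0, 1)) ∧
          (∀ k ≤ m, (π k).2 ≤ (π k).1) ∧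
          w = ∑ k ∈ Finset.range (m + 1), W (π k)}) →
      ∀ (U : ℕ → ℝ → ℝ → ℤ × ℤ),
      (∀ n x s, U n x s = (⌊(n : ℝ) * s + (2 : ℝ) ^ ((5 : ℝ) / 3) * (n : ℝ) ^ ((2 : ℝ) / 3) * x⌋,
          ⌊(n : ℝ) * s⌋)) →
      ∀ (h : ℕ → ℝ → ℝ → ℝ),
      (∀ n x s, h n x s = 4 * (n : ℝ) * s + (2 : ℝ) ^ ((8 : ℝ) / 3) * (n : ℝ) ^ ((2 : ℝ) / 3) * x) →
      ∀ (Lsc : ℕ → (ℤ × ℤ → ℝ) → ℝ × ℝ × ℝ × ℝ → ℝ),
      (∀ n W p, Lsc n W p = (2 : ℝ) ^ (-(4 : ℝ) / 3) * (n : ℝ) ^ (-(1 : ℝ) / 3) *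
          (G W (U n p.1 p.2.1) (U n p.2.2.1 p.2.2.2) - (h n p.2.2.1 p.2.2.2 - h n p.1 p.2.1))) →
      ∀ (ρ : ℝ) (K : Set (ℝ × ℝ × ℝ × ℝ)), IsCompact K →
      K ⊆ {p | 0 ≤ p.1 ∧ 0 ≤ p.2.2.1 ∧ p.2.1 < p.2.2.2} →
      ∀ ε : ℝ, 0 < ε →
      Tendsto (fun n : ℕ => P {ω | ∃ p ∈ K, U n p.1 p.2.1 ≤ U n p.2.2.1 p.2.2.2 ∧
          ε < |Lsc n (fun z => if z.1 = z.2
                then (1 / 2 - (2 : ℝ) ^ (-(4 : ℝ) / 3) * ρ * (n : ℝ) ^ (-(1 : ℝ) / 3))⁻¹ * E z ω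
                else E z ω) p
              - Lsc n (fun z => if z.1 = z.2
                then (1 / 2 - (2 : ℝ) ^ (-(4 : ℝ) / 3) * ρ * (n : ℝ) ^ (-(1 : ℝ) / 3))⁻¹ * E (z.1, z.1 + 1) ω
                else E z ω) p|})
        atTop (𝓝 0) := by
  open Pool.Agent.P.MP_9957ef_pr in
  exact final (mt (point var (stat (xi (yt gm tt) (ut gm tt)) multi) (touch slab gm) vd) tt
    (inc gm tt))

end Pool.Agent.S19505
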