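import Pool.Statements.S19667
import Pool.Agent.P.MP_d74cc6_pr.Final

set_option autoImplicit false
open MeasureTheory
open Pool Pool.MP_d74cc6_pr

namespace Pool.Agent.S19667

/-- For d ≥ 2 and p above the percolation threshold on ℤ^d, any probability measure on [-2d,2d] whose k-th moment is the expected number of closed length-k walks at 0 in the open cluster graph is not carried by a countable set. -/
theorem result :
  ∀ (d : ℕ), 2 ≤ d →
  ∀ (G : ((Fin d → ℤ) × Fin d → Bool) → SimpleGraph (Fin d → ℤ)),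
    (∀ ω, G ω = SimpleGraph.fromRel
      (fun x y : Fin d → ℤ => ∃ i : Fin d, y = x + Pi.single i 1 ∧ ω (x, i) = true)) →
  ∀ (p : ℝ), p ≤ 1 →
  (∃ q : ℝ, 0 ≤ q ∧ q < p ∧ ∃ (ν : Measure Bool), ∃ (_ : IsProbabilityMeasure ν),
      ν {true} = ENNReal.ofReal q ∧
      Measure.infinitePi (fun _ : (Fin d → ℤ) × Fin d => ν)
        {ω | {y | (G ω).Reachable 0 y}.Infinite} ≠ 0) →
  ∀ (ν : Measure Bool) [IsProbabilityMeasure ν], ν {true} = ENNReal.ofReal p →
  ∀ (μ : Measure ℝ) [IsProbabilityMeasure μ],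
    μ (Set.Icc (-(2 * (d : ℝ))) (2 * (d : ℝ)))ᶜ = 0 →
    (∀ k : ℕ, ∫ x, x ^ k ∂μ =
      ∫ ω, (Nat.card {w : (G ω).Walk 0 0 // w.length = k} : ℝ)
        ∂(Measure.infinitePi (fun _ : (Fin d → ℤ) × Fin d => ν))) →
    ∀ S : Set ℝ, S.Countable → μ Sᶜ ≠ 0 :=
  Pool.Agent.P.MP_d74cc6_pr.final

end Pool.Agent.S19667
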